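import Pool.Agent.H42.JM.Prof
import Pool.Agent.H77.TIE.StepC
import Pool.Agent.H77.TIE.Elim

/-!
# The third key

`nu` is a height which is almost independent of the base `B` and has nonfull rows given the base.
Along the leaves `L` it is a polynomial `Q` of a position which is full given the leaf. Then the
nonconstant coefficients of `Q` are small for most leaves.
-/

set_option autoImplicit false

namespace Pool.KEY3

open Finset Real MvPolynomial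
open Pool.Agent.H49.Ent Pool.Agent.H32.Dense Pool.STK Pool.BFL Pool.MIC Pool.MIC30
open Pool.TIE (dg CH_box lip_cs cs_le)
open Pool.JMP (pig)
open Pool.KAL (coefSum coefSum_nonneg coefSum_C_mul expBox abs_eval_le_coefSum)

variable {Ω : Type} [Fintype Ω] {p : Ω → ℝ}

/-- The first digits are full if all digits are full. -/
theorem top_full {T : Type} {s X x : ℕ} (hp : IsLaw p) (hx : x ≤ X) (Y : Ω → Fin s → ℤ)
    (hY : ∀ ω i, 0 ≤ Y ω i ∧ Y ω i < 2 ^ X) (W : Ω → T) {θ : ℝ}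
    (h : s * (X * Real.log 2) - θ ≤ CH p Y W) :
    s * (x * Real.log 2) - θ ≤ CH p (fun ω i => Y ω i / 2 ^ (X - x)) W := by
  have h0 := hp.nonneg
  have hd : (0 : ℤ) < 2 ^ (X - x) := by positivity
  have h1 : CH p Y W ≤ CH p (fun ω => ((fun i => Y ω i % 2 ^ (X - x)),
      (fun i => Y ω i / 2 ^ (X - x)))) W := by
    refine CH_mono_left h0 fun ω ω' _ _ e => ?_
    simp only [Prod.mk.injEq] at e
    obtain ⟨⟨e1, e2⟩, -⟩ := e
    funext i
    have a1 := congrFun e1 i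
    have a2 := congrFun e2 i
    have b1 := Int.mul_ediv_add_emod (Y ω i) (2 ^ (X - x))
    have b2 := Int.mul_ediv_add_emod (Y ω' i) (2 ^ (X - x))
    rw [← b1, ← b2, a1, a2]
  rw [CH_chain h0] at h1
  have h2 := CH_box hp (k := s) (X := X - x) (fun ω i => Y ω i % 2 ^ (X - x))
    (fun ω i => ⟨Int.emod_nonneg _ hd.ne', Int.emod_lt_of_pos _ hd⟩)
    (fun ω => ((fun i => Y ω i / 2 ^ (X - x)), W ω))
  have h3 : ((X - x : ℕ) : ℝ) = X - x := Nat.cast_sub hx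
  rw [h3] at h2
  have h4 : (s : ℝ) * (X * Real.log 2) = s * ((X - x) * Real.log 2) + s * (x * Real.log 2) := by
    ring
  linarith

/-- The first digits of a position. -/
theorem top_near {X x : ℕ} (hx : x ≤ X) (n : ℤ) :
    |((n / 2 ^ (X - x) : ℤ) : ℝ) / 2 ^ x - (n : ℝ) / 2 ^ X| ≤ 1 / 2 ^ x := by
  have hd : (0 : ℤ) < 2 ^ (X - x) := by positivity
  have b1 := Int.mul_ediv_add_emod n (2 ^ (X - x))
  have b2 := Int.emod_nonneg n hd.ne'
  have b3 := Int.emod_lt_of_pos n hd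
  obtain ⟨m, hm⟩ : ∃ m, m = n / 2 ^ (X - x) := ⟨_, rfl⟩
  obtain ⟨e, he⟩ : ∃ e, e = n % 2 ^ (X - x) := ⟨_, rfl⟩
  rw [← hm, ← he] at b1
  rw [← he] at b2 b3
  rw [← hm]
  have h1 : (n : ℝ) = 2 ^ (X - x) * m + e := by
    rw [← b1]
    push_cast
    ring
  have h2 : (2 : ℝ) ^ X = 2 ^ (X - x) * 2 ^ x := by
    rw [← pow_add]
    congr 1
    omega
  have h3 : (0 : ℝ) ≤ e := by exact_mod_cast b2
  have h4 : (e : ℝ) ≤ 2 ^ (X - x) := by exact_mod_cast b3.le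
  have p1 : (0 : ℝ) < 2 ^ (X - x) := by positivity
  have p2 : (0 : ℝ) < 2 ^ x := by positivity
  have h5 : (m : ℝ) / 2 ^ x - (n : ℝ) / 2 ^ X = -(e / (2 ^ (X - x) * 2 ^ x)) := by
    rw [h1, h2]
    field_simp
    ring
  rw [h5, abs_neg, abs_of_nonneg (by positivity), div_le_div_iff₀ (by positivity) p2]
  have h6 : (e : ℝ) * 2 ^ x ≤ 2 ^ (X - x) * 2 ^ x := mul_le_mul_of_nonneg_right h4 p2.le
  linarith

/-- Independence of the rows after `r`. -/
theorem rows_ind {T β : Type} (hp : IsLaw p) (nu : Ω → ℝ) (B : Ω → β) (Z : Ω → T) {r h : ℕ}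
    (hr : r ≤ h) {θ : ℝ}
    (hi : CH p (fun ω => dg h (nu ω)) Z ≤ CH p (fun ω => dg h (nu ω)) (fun ω => (B ω, Z ω)) + θ) :
    CH p (fun ω => dg h (nu ω)) (fun ω => (dg r (nu ω), Z ω)) ≤
      CH p (fun ω => dg h (nu ω)) (fun ω => (dg r (nu ω), (B ω, Z ω))) + θ := by
  have h0 := hp.nonneg
  have key : ∀ {U : Type} (W : Ω → U), CH p (fun ω => dg h (nu ω)) (fun ω => (dg r (nu ω), W ω)) =
      CH p (fun ω => dg h (nu ω)) W - CH p (fun ω => dg r (nu ω)) W := by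
    intro U W
    have h1 := CH_chain h0 (fun ω => dg h (nu ω)) (fun ω => dg r (nu ω)) W
    have h2 : CH p (fun ω => (dg h (nu ω), dg r (nu ω))) W = CH p (fun ω => dg h (nu ω)) W := by
      refine CH_congr h0 ?_ ?_ (fun _ _ _ _ e => e) (fun _ _ _ _ e => e)
      · intro ω ω' _ _ e
        simp only [Prod.mk.injEq] at e
        exact e.1.1
      · intro ω ω' _ _ e
        simp only [Prod.mk.injEq] at e
        refine Prod.ext e.1 ?_
        show dg r (nu ω) = dg r (nu ω')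
        have e1 : ∀ x : ℝ, dg r x = dg h x / 2 ^ (h - r) := by
          intro x
          unfold Pool.TIE.dg
          have e2 : (2 : ℝ) ^ r * x = 2 ^ h * x / ((2 ^ (h - r) : ℕ) : ℝ) := by
            have e3 : (2 : ℝ) ^ h = 2 ^ (h - r) * 2 ^ r := by
              rw [← pow_add]
              congr 1
              omega
            have e4 : ((2 ^ (h - r) : ℕ) : ℝ) = 2 ^ (h - r) := by push_cast; rfl
            have e5 : (0 : ℝ) < 2 ^ (h - r) := by positivity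
            rw [e4, e3]
            field_simp
          rw [e2, Int.floor_div_natCast]
          push_cast
          rfl
        rw [e1, e1, e.1]
    linarith
  rw [key, key]
  have h3 : CH p (fun ω => dg r (nu ω)) (fun ω => (B ω, Z ω)) ≤ CH p (fun ω => dg r (nu ω)) Z :=
    CH_mono_cond h0 fun _ _ _ _ e => (Prod.ext_iff.1 e).2
  linarith


/-- **One window.** -/
theorem win (s K e : ℕ) : ∃ C : ℝ, 1 ≤ C ∧ ∀ (Ω ζ κ' : Type) [Fintype Ω] (p : Ω → ℝ)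
    (Z : Ω → ζ) (L : Ω → κ') (Y : Ω → Fin s → ℤ) (nu cst : Ω → ℝ) (Q : Ω → Pl s)
    (r h X b t u : ℕ) (θ : ℝ), IsLaw p → r ≤ h → h ≤ X → 1 ≤ u → 0 ≤ θ →
    (∀ ω i, 0 ≤ Y ω i ∧ Y ω i < 2 ^ X) →
    Det p (fun ω => (L ω, Z ω)) Q → Det p (fun ω => (L ω, Z ω)) cst →
    (∀ ω, 0 < p ω → (Q ω).totalDegree ≤ K) → (∀ ω, 0 < p ω → coeff 0 (Q ω) = 0) →
    (∀ ω, 0 < p ω → ∀ m, |coeff m (Q ω)| ≤ 2 ^ b / 2 ^ r) →
    (∀ ω, 0 < p ω → Lg (r + t) (Q ω)) →
    (∀ ω, 0 < p ω →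
      |nu ω - cst ω - eval (fun i => ((Y ω i : ℤ) : ℝ) / 2 ^ X) (Q ω)| ≤ 2 ^ e / 2 ^ h) →
    s * (X * Real.log 2) - θ ≤ CH p Y (fun ω => (L ω, Z ω)) →
    ((h : ℝ) - r) * Real.log 2 ≤ CH p (fun ω => dg h (nu ω)) (fun ω => (dg r (nu ω), Z ω)) +
      (C * (t + b + u + 1) + C * (h * (θ + 1) / u)) := by
  classical
  obtain ⟨C, hC1, hC⟩ := one s K
  obtain ⟨D, hD⟩ : ∃ D : ℝ, D = (expBox (Fin s) K).card := ⟨_, rfl⟩
  have hD0 : (0 : ℝ) ≤ D := by rw [hD]; positivity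
  have hKK : (0 : ℝ) ≤ K * 2 ^ K := by positivity
  have hl2 : 0 < Real.log 2 := Real.log_pos (by norm_num)
  have hl2' : Real.log 2 ≤ 1 := by linarith [Real.log_two_lt_d9]
  -- logarithms
  have hlg : ∀ (a : ℝ) (b : ℕ), 1 ≤ a → Real.log (a * 2 ^ b) ≤ Real.log a + b := by
    intro a b ha
    rw [Real.log_mul (by positivity) (by positivity), Real.log_pow]
    have : (b : ℝ) * Real.log 2 ≤ b * 1 := mul_le_mul_of_nonneg_left hl2' (by positivity)
    linarith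
  have he1 : (1 : ℝ) ≤ 2 ^ e := one_le_pow₀ (by norm_num)
  obtain ⟨T, hT⟩ : ∃ T : ℝ, T = 2 + 2 ^ e := ⟨_, rfl⟩
  have hT0 : 3 ≤ T := by rw [hT]; linarith
  obtain ⟨A1, hA1⟩ : ∃ A1 : ℝ, A1 = 4 * (T + K * 2 ^ K * D) + 3 := ⟨_, rfl⟩
  obtain ⟨A2, hA2⟩ : ∃ A2 : ℝ, A2 = 2 * (2 * (T + D)) + 1 := ⟨_, rfl⟩
  have hA1' : 1 ≤ A1 := by
    rw [hA1]
    have := mul_nonneg hKK hD0
    linarith
  have hA2' : 1 ≤ A2 := by rw [hA2]; linarith
  refine ⟨C + Real.log A1 + Real.log A2 + 2, by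
    have := Real.log_nonneg hA1'
    have := Real.log_nonneg hA2'
    linarith, ?_⟩
  intro Ω ζ κ' _ p Z L Y nu cst Q r h X b t u θ hp hr hX hu hθ hY hdQ hdc hdeg hc0 hcf hlgQ hnu hful
  have h0 := hp.nonneg
  have hb1 : (1 : ℝ) ≤ 2 ^ b := one_le_pow₀ (by norm_num)
  have p2r : (0 : ℝ) < 2 ^ r := by positivity
  have p2h : (0 : ℝ) < 2 ^ h := by positivity
  have hxr : 2 ^ (h - r) * (2 : ℝ) ^ r = 2 ^ h := by
    rw [← pow_add]
    congr 1
    omega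
  have p2x : (0 : ℝ) < 2 ^ (h - r) := by positivity
  have hxX : h - r ≤ X := by omega
  -- the small polynomial
  obtain ⟨Q', hQ'⟩ : ∃ Q' : Pl s × (κ' × ζ) → Pl s,
    Q' = fun c => MvPolynomial.C ((2 : ℝ) ^ r) * c.1 := ⟨_, rfl⟩
  obtain ⟨c, hc⟩ : ∃ c : Ω → Pl s × (κ' × ζ), c = fun ω => (Q ω, (L ω, Z ω)) := ⟨_, rfl⟩
  have hQc : ∀ ω, Q' (c ω) = MvPolynomial.C ((2 : ℝ) ^ r) * Q ω := by
    intro ω
    rw [hQ', hc]
  have hcoe : ∀ ω m, coeff m (Q' (c ω)) = 2 ^ r * coeff m (Q ω) := by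
    intro ω m
    rw [hQc, coeff_C_mul]
  have hcf' : ∀ ω, 0 < p ω → ∀ m, |coeff m (Q' (c ω))| ≤ 2 ^ b := by
    intro ω hω m
    rw [hcoe, abs_mul, abs_of_pos p2r]
    have := hcf ω hω m
    rw [le_div_iff₀ p2r] at this
    linarith
  have hdeg' : ∀ ω, 0 < p ω → (Q' (c ω)).totalDegree ≤ K := by
    intro ω hω
    rw [hQc]
    refine (totalDegree_mul _ _).trans ?_
    rw [totalDegree_C, zero_add]
    exact hdeg ω hω
  have hcs : ∀ ω, 0 < p ω → coefSum (Q' (c ω)) ≤ D * 2 ^ b := by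
    intro ω hω
    rw [hD]
    exact cs_le (hdeg' ω hω) (hcf' ω hω)
  have hY1 : ∀ ω i, |((Y ω i : ℤ) : ℝ) / 2 ^ X| ≤ 1 := by
    intro ω i
    have h1 : (0 : ℝ) ≤ (Y ω i : ℤ) := by exact_mod_cast (hY ω i).1
    have h2 : ((Y ω i : ℤ) : ℝ) ≤ 2 ^ X := by exact_mod_cast (hY ω i).2.le
    rw [abs_of_nonneg (by positivity), div_le_one (by positivity)]
    exact h2
  -- the value of the polynomial
  have hev : ∀ ω, 0 < p ω → |nu ω * 2 ^ h - cst ω * 2 ^ h - 2 ^ (h - r) *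
      eval (fun i => ((Y ω i : ℤ) : ℝ) / 2 ^ X) (Q' (c ω))| ≤ 2 ^ e := by
    intro ω hω
    rw [hQc, eval_mul, eval_C]
    have h1 := hnu ω hω
    rw [le_div_iff₀ p2h] at h1
    have h2 : nu ω * 2 ^ h - cst ω * 2 ^ h - 2 ^ (h - r) *
        (2 ^ r * eval (fun i => ((Y ω i : ℤ) : ℝ) / 2 ^ X) (Q ω)) =
        (nu ω - cst ω - eval (fun i => ((Y ω i : ℤ) : ℝ) / 2 ^ X) (Q ω)) * 2 ^ h := by
      rw [← mul_assoc, hxr]
      ring
    rw [h2, abs_mul, abs_of_pos p2h]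
    exact h1
  -- the large digits of the position
  obtain ⟨Y', hY'⟩ : ∃ Y' : Ω → Fin s → ℤ, Y' = fun ω i => Y ω i / 2 ^ (X - (h - r)) := ⟨_, rfl⟩
  have hYb : ∀ ω i, |((Y' ω i : ℤ) : ℝ)| ≤ 2 ^ 0 * 2 ^ (h - r) := by
    intro ω i
    have hd : (0 : ℤ) < 2 ^ (X - (h - r)) := by positivity
    have h1 : 0 ≤ Y' ω i := by
      rw [hY']
      exact Int.ediv_nonneg (hY ω i).1 hd.le
    have h2 : Y' ω i < 2 ^ (h - r) := by
      rw [hY']
      refine Int.ediv_lt_of_lt_mul hd ?_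
      rw [← pow_add]
      have e : h - r + (X - (h - r)) = X := by omega
      rw [e]
      exact (hY ω i).2
    have h3 : (0 : ℝ) ≤ (Y' ω i : ℤ) := by exact_mod_cast h1
    rw [abs_of_nonneg h3, pow_zero, one_mul]
    exact_mod_cast h2.le
  have hYn : ∀ ω i, |((Y' ω i : ℤ) : ℝ) / 2 ^ (h - r) - ((Y ω i : ℤ) : ℝ) / 2 ^ X| ≤
      1 / 2 ^ (h - r) := by
    intro ω i
    rw [hY']
    exact top_near hxX _
  have hev2 : ∀ ω, 0 < p ω → |2 ^ (h - r) * eval (fun i => ((Y' ω i : ℤ) : ℝ) / 2 ^ (h - r))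
      (Q' (c ω)) - 2 ^ (h - r) * eval (fun i => ((Y ω i : ℤ) : ℝ) / 2 ^ X) (Q' (c ω))| ≤
      K * 2 ^ K * D * 2 ^ b := by
    intro ω hω
    have h1 := lip_cs (hdeg' ω hω) (hcs ω hω) (x := fun i => ((Y ω i : ℤ) : ℝ) / 2 ^ X)
      (u := fun i => ((Y' ω i : ℤ) : ℝ) / 2 ^ (h - r)) (hY1 ω) (r := 1 / 2 ^ (h - r))
      (by positivity)
      (by
        rw [div_le_one p2x]
        exact one_le_pow₀ (by norm_num)) (fun i _ => hYn ω i)
    rw [← mul_sub, abs_mul, abs_of_pos p2x]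
    calc _ ≤ (2 : ℝ) ^ (h - r) * (K * 2 ^ K * (D * 2 ^ b) * (1 / 2 ^ (h - r))) :=
          mul_le_mul_of_nonneg_left h1 p2x.le
      _ = K * 2 ^ K * D * 2 ^ b := by field_simp
  -- the application
  have hYfull : s * (((h - r : ℕ) : ℝ) * Real.log 2) - θ ≤
      CH p Y' (fun ω => (dg h (cst ω), c ω)) := by
    have h1 := top_full hp hxX Y hY (fun ω => (L ω, Z ω)) hful
    refine h1.trans ?_
    rw [hY']
    refine CH_mono_cond h0 fun ω ω' a a' e => ?_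
    have e1 := hdQ ω ω' a a' e
    have e2 := hdc ω ω' a a' e
    have e3 : L ω = L ω' ∧ Z ω = Z ω' := ⟨congrArg Prod.fst e, congrArg Prod.snd e⟩
    rw [hc]
    show (dg h (cst ω), (Q ω, (L ω, Z ω))) = (dg h (cst ω'), (Q ω', (L ω', Z ω')))
    rw [e1, e2, e3.1, e3.2]
  have hdet : Det p (fun ω => (dg h (cst ω), c ω)) (fun ω => (Z ω, dg r (cst ω))) := by
    intro ω ω' a a' e
    have e0 : c ω = c ω' := congrArg Prod.snd e
    rw [hc] at e0
    have e3 : L ω = L ω' ∧ Z ω = Z ω' :=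
      ⟨congrArg (fun x => x.2.1) e0, congrArg (fun x => x.2.2) e0⟩
    have e2 := hdc ω ω' a a' (Prod.ext e3.1 e3.2)
    show (Z ω, dg r (cst ω)) = (Z ω', dg r (cst ω'))
    rw [e2, e3.2]
  have hfl : ∀ (n : ℕ) (x : ℝ), |((dg n x : ℤ) : ℝ) - x * 2 ^ n| ≤ 1 := by
    intro n x
    unfold Pool.TIE.dg
    have a1 := Int.floor_le ((2 : ℝ) ^ n * x)
    have a2 := Int.lt_floor_add_one ((2 : ℝ) ^ n * x)
    rw [abs_le]
    constructor <;> nlinarith
  have hmain := hC Ω (Pl s × (κ' × ζ)) (ζ × ℤ) p (h - r) 0 b t u Y' (fun ω => dg h (cst ω))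
    (fun ω => dg h (nu ω)) c (fun ω => (Z ω, dg r (cst ω))) Q' θ ((T + K * 2 ^ K * D) * 2 ^ b)
    hp hu hθ (by positivity) (fun ω _ => hYb ω) hdeg' (fun ω hω k _ => hcf' ω hω k)
    (fun ω hω => by
      have h1 := hev ω hω
      have h2 := hev2 ω hω
      have h3 := hfl h (nu ω)
      have h4 := hfl h (cst ω)
      have h5 : (T + K * 2 ^ K * D) * 2 ^ b ≥ 2 + 2 ^ e + K * 2 ^ K * D * 2 ^ b := by
        rw [← hT]
        nlinarith
      rw [abs_le] at h1 h2 h3 h4 ⊢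
      constructor <;> linarith [h1.1, h1.2, h2.1, h2.2, h3.1, h3.2, h4.1, h4.2])
    hYfull hdet
  have hall : Pb p (fun ω => Lg t (Q' (c ω))) = 1 := by
    unfold Pb
    rw [← hp.sum_one]
    refine Finset.sum_congr rfl fun ω _ => ?_
    rcases (h0 ω).eq_or_lt with hz | hω
    · rw [← hz]
      simp
    · rw [if_pos]
      obtain ⟨k, hk, hlt⟩ := hlgQ ω hω
      refine ⟨k, hk, ?_⟩
      rw [hcoe, abs_mul, abs_of_pos p2r]
      have h1 : (1 : ℝ) / 2 ^ t = 2 ^ r * (1 / 2 ^ (r + t)) := by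
        rw [pow_add]
        field_simp
      rw [h1]
      exact mul_lt_mul_of_pos_left hlt p2r
  rw [hall, one_mul] at hmain
  -- the start of the window
  have hst : ∀ ω, 0 < p ω → |((dg r (nu ω) - dg r (cst ω) : ℤ) : ℝ)| ≤ (T + D) * 2 ^ b := by
    intro ω hω
    have h1 := hnu ω hω
    have h2 := hfl r (nu ω)
    have h3 := hfl r (cst ω)
    have h4 : |eval (fun i => ((Y ω i : ℤ) : ℝ) / 2 ^ X) (Q ω) * 2 ^ r| ≤ D * 2 ^ b := by
      have h5 := abs_eval_le_coefSum (Q' (c ω)) _ (hY1 ω)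
      rw [hQc, eval_mul, eval_C, mul_comm ((2 : ℝ) ^ r)] at h5
      refine h5.trans ?_
      rw [← hQc]
      exact hcs ω hω
    have h6 : |(nu ω - cst ω - eval (fun i => ((Y ω i : ℤ) : ℝ) / 2 ^ X) (Q ω)) * 2 ^ r| ≤ 2 ^ e := by
      rw [abs_mul, abs_of_pos p2r]
      rw [le_div_iff₀ p2h] at h1
      have h7 : (2 : ℝ) ^ r ≤ 2 ^ h := pow_le_pow_right₀ (by norm_num) hr
      exact (mul_le_mul_of_nonneg_left h7 (abs_nonneg _)).trans h1
    push_cast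
    have h8 : (T + D) * 2 ^ b ≥ 2 + 2 ^ e + D * 2 ^ b := by
      rw [← hT]
      nlinarith
    have h9 : (nu ω - cst ω - eval (fun i => ((Y ω i : ℤ) : ℝ) / 2 ^ X) (Q ω)) * 2 ^ r =
        nu ω * 2 ^ r - cst ω * 2 ^ r - eval (fun i => ((Y ω i : ℤ) : ℝ) / 2 ^ X) (Q ω) * 2 ^ r := by
      ring
    rw [h9] at h6
    rw [abs_le] at h2 h3 h4 h6 ⊢
    constructor <;> linarith [h2.1, h2.2, h3.1, h3.2, h4.1, h4.2, h6.1, h6.2]
  have hst2 : CH p (fun ω => dg r (nu ω)) (fun ω => (Z ω, dg r (cst ω))) ≤ Real.log A2 + b := by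
    refine (CH_le_int h0 hp.sum_one _ _ (fun _ => 2 * ((T + D) * 2 ^ b)) ?_).trans ?_
    · intro ω ω' a a' e
      have e1 : dg r (cst ω) = dg r (cst ω') := congrArg Prod.snd e
      have h1 := hst ω a
      have h2 := hst ω' a'
      rw [e1] at h1
      push_cast at h1 h2 ⊢
      rw [abs_le] at h1 h2 ⊢
      constructor <;> linarith [h1.1, h1.2, h2.1, h2.2]
    · rw [Ex_const hp.sum_one]
      refine le_trans (Real.log_le_log (by positivity) ?_) (hlg A2 b hA2')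
      rw [hA2]
      nlinarith
  have hch : CH p (fun ω => dg h (nu ω)) (fun ω => (Z ω, dg r (cst ω))) ≤
      CH p (fun ω => dg h (nu ω)) (fun ω => (dg r (nu ω), Z ω)) +
        CH p (fun ω => dg r (nu ω)) (fun ω => (Z ω, dg r (cst ω))) := by
    have h1 := CH_chain h0 (fun ω => dg h (nu ω)) (fun ω => dg r (nu ω))
      (fun ω => (Z ω, dg r (cst ω)))
    have h2 : CH p (fun ω => dg h (nu ω)) (fun ω => (Z ω, dg r (cst ω))) ≤
        CH p (fun ω => (dg h (nu ω), dg r (nu ω))) (fun ω => (Z ω, dg r (cst ω))) :=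
      CH_mono_left h0 fun _ _ _ _ e => congrArg (fun x => x.1.1) e
    have h3 : CH p (fun ω => dg h (nu ω)) (fun ω => (dg r (nu ω), (Z ω, dg r (cst ω)))) ≤
        CH p (fun ω => dg h (nu ω)) (fun ω => (dg r (nu ω), Z ω)) :=
      CH_mono_cond h0 fun _ _ _ _ e => by
        have e1 := congrArg (fun x => x.1) e
        have e2 := congrArg (fun x => x.2.1) e
        exact Prod.ext e1 e2
    linarith
  -- the end
  have e1 : ((h - r : ℕ) : ℝ) = h - r := Nat.cast_sub hr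
  have hl1 : Real.log (4 * ((T + K * 2 ^ K * D) * 2 ^ b) + 3) ≤ Real.log A1 + b := by
    refine le_trans (Real.log_le_log (by positivity) ?_) (hlg A1 b hA1')
    rw [hA1]
    nlinarith
  have hA1n := Real.log_nonneg hA1'
  have hA2n := Real.log_nonneg hA2'
  have ht0 : (0 : ℝ) ≤ t := Nat.cast_nonneg _
  have hb0 : (0 : ℝ) ≤ b := Nat.cast_nonneg _
  have hu0 : (1 : ℝ) ≤ u := by exact_mod_cast hu
  have hh0 : (0 : ℝ) ≤ h := Nat.cast_nonneg _
  have hr0 : (0 : ℝ) ≤ r := Nat.cast_nonneg _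
  simp only [Nat.cast_zero, add_zero] at hmain
  rw [e1] at hmain
  have f1 : C * (((h : ℝ) - r) * (θ + 1) / u) ≤ C * (h * (θ + 1) / u) := by
    refine mul_le_mul_of_nonneg_left ?_ (by linarith)
    refine div_le_div_of_nonneg_right ?_ (by linarith)
    refine mul_le_mul_of_nonneg_right ?_ (by linarith)
    linarith
  have f2 : (0 : ℝ) ≤ h * (θ + 1) / u := by positivity
  obtain ⟨S, hS⟩ : ∃ S : ℝ, S = t + b + u + 1 := ⟨_, rfl⟩
  have hS1 : 1 ≤ S := by rw [hS]; linarith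
  have hSb : (b : ℝ) ≤ S := by rw [hS]; linarith
  have f3 : Real.log A1 ≤ Real.log A1 * S := le_mul_of_one_le_right hA1n hS1
  have f4 : Real.log A2 ≤ Real.log A2 * S := le_mul_of_one_le_right hA2n hS1
  have f5 : 0 ≤ (Real.log A1 + Real.log A2 + 2) * (h * (θ + 1) / u) := by positivity
  have f6 : (C + Real.log A1 + Real.log A2 + 2) * S =
      C * S + Real.log A1 * S + Real.log A2 * S + 2 * S := by ring
  have f7 : (C + Real.log A1 + Real.log A2 + 2) * (h * (θ + 1) / u) =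
      C * (h * (θ + 1) / u) + (Real.log A1 + Real.log A2 + 2) * (h * (θ + 1) / u) := by ring
  have f8 : C * ((t : ℝ) + b + u + 1) = C * S := by rw [hS]
  rw [← hS, f6, f7]
  rw [f8] at hmain
  linarith


/-- **The third key.** `nu` is almost independent of the base `B` given `Z` and has nonfull rows
given `(B, Z)`, on every event which is not small. Along the leaves `L` it is `cst + Q (position)`,
the position is full given `(L, Z)`. Then the coefficients of `Q` are at most `2 ^ (-(1 - ε) h)`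
outside of an event of probability `ε`. -/
theorem key3e (s K e : ℕ) {c₀ ε : ℝ} (hc₀ : 0 < c₀) (hε : 0 < ε) :
    ∃ (h₁ : ℕ) (κ ρ ι : ℝ), 0 < κ ∧ 0 < ρ ∧ 0 < ι ∧ ∀ (Ω ζ β κ' : Type) [Fintype Ω] (q : Ω → ℝ)
      (Z : Ω → ζ) (B : Ω → β) (L : Ω → κ') (Y : Ω → Fin s → ℤ) (nu cst : Ω → ℝ) (Q : Ω → Pl s)
      (X h : ℕ), IsLaw q → h₁ ≤ h → h ≤ X → (∀ ω i, 0 ≤ Y ω i ∧ Y ω i < 2 ^ X) →
      Det q (fun ω => (L ω, Z ω)) Q → Det q (fun ω => (L ω, Z ω)) cst →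
      (∀ ω, 0 < q ω → (Q ω).totalDegree ≤ K) → (∀ ω, 0 < q ω → coeff 0 (Q ω) = 0) →
      (∀ ω, 0 < q ω → ∀ m, |coeff m (Q ω)| ≤ (2 : ℝ) ^ (ι * h)) →
      (∀ ω, 0 < q ω →
        |nu ω - cst ω - eval (fun i => ((Y ω i : ℤ) : ℝ) / 2 ^ X) (Q ω)| ≤ 2 ^ e / 2 ^ h) →
      s * (X * Real.log 2) - ι * h ≤ CH q Y (fun ω => (L ω, Z ω)) →
      CH q (fun ω => dg h (nu ω)) Z ≤
        CH q (fun ω => dg h (nu ω)) (fun ω => (B ω, Z ω)) + ι * h →
      (∀ E : Ω → Prop, ρ ≤ Pb q E → ∀ r : ℕ, (r : ℝ) ≤ (1 - κ) * h →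
        CH (cond q E True) (fun ω => dg h (nu ω)) (fun ω => (dg r (nu ω), (B ω, Z ω))) ≤
          (1 - c₀) * (((h : ℝ) - r) * Real.log 2)) →
      ∀ H : ℕ, (H : ℝ) ≤ (1 - ε) * h → Pb q (fun ω => Lg H (Q ω)) ≤ ε := by
  classical
  rcases le_or_gt 1 ε with hε1 | hε1
  · refine ⟨0, 1, 1, 1, one_pos, one_pos, one_pos, ?_⟩
    intro Ω ζ β κ' _ q Z B L Y nu cst Q X h hq _ _ _ _ _ _ _ _ _ _ _ _ H _
    have h1 := Pb_not hq.sum_one (fun ω => Lg H (Q ω))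
    have h2 := Pb_nonneg hq.nonneg (fun ω => ¬ Lg H (Q ω))
    linarith
  obtain ⟨C, hC1, hwin⟩ := win s K e
  have hl2 : 0 < Real.log 2 := Real.log_pos (by norm_num)
  have hl2' : Real.log 2 ≤ 1 := by linarith [Real.log_two_lt_d9]
  have hC0 : 0 < C := by linarith
  obtain ⟨W, hW⟩ : ∃ W : ℝ, W = c₀ * ε * Real.log 2 := ⟨_, rfl⟩
  have hW0 : 0 < W := by rw [hW]; positivity
  obtain ⟨η, hη⟩ : ∃ η : ℝ, η = W / (8 * C) := ⟨_, rfl⟩
  have hη0 : 0 < η := by rw [hη]; positivity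
  obtain ⟨M, hM⟩ : ∃ M : ℕ, M = ⌈1 / η⌉₊ := ⟨_, rfl⟩
  obtain ⟨ρ, hρ⟩ : ∃ ρ : ℝ, ρ = ε / (M + 1) := ⟨_, rfl⟩
  have hρ0 : 0 < ρ := by rw [hρ]; positivity
  obtain ⟨G, hG⟩ : ∃ G : ℝ, G = 1 / ρ + C + C * (1 / ρ / η) := ⟨_, rfl⟩
  have hG0 : 0 < G := by rw [hG]; positivity
  obtain ⟨ι, hι⟩ : ∃ ι : ℝ, ι = W / (8 * G) := ⟨_, rfl⟩
  have hι0 : 0 < ι := by rw [hι]; positivity
  obtain ⟨R, hR⟩ : ∃ R : ℝ, R = 1 / ρ + 4 * C + C * ((1 / ρ + 1) / η) := ⟨_, rfl⟩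
  have hR0 : 0 < R := by rw [hR]; positivity
  refine ⟨⌈8 * R / W⌉₊ + 1, ε, ρ, ι, hε, hρ0, hι0, ?_⟩
  intro Ω ζ β κ' _ q Z B L Y nu cst Q X h hq hh hX hY hdQ hdc hdeg hc0 hcf hnu hful hind hnf H hH
  have h0 := hq.nonneg
  by_contra hcon
  push Not at hcon
  have hh1 : 8 * R / W + 1 ≤ h := by
    have h1 := Nat.le_ceil (8 * R / W)
    have h2 : ((⌈8 * R / W⌉₊ + 1 : ℕ) : ℝ) ≤ h := by exact_mod_cast hh
    push_cast at h2
    linarith
  have hhp : (1 : ℝ) ≤ h := by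
    have : 0 ≤ 8 * R / W := by positivity
    linarith
  have hh0 : (0 : ℝ) < h := by linarith
  obtain ⟨t, ht⟩ : ∃ t : ℕ, t = ⌈η * h⌉₊ := ⟨_, rfl⟩
  obtain ⟨b, hb⟩ : ∃ b : ℕ, b = ⌈ι * h⌉₊ := ⟨_, rfl⟩
  have ht1 : η * h ≤ t := by rw [ht]; exact Nat.le_ceil _
  have ht2 : (t : ℝ) ≤ η * h + 1 := by rw [ht]; exact (Nat.ceil_lt_add_one (by positivity)).le
  have hb1 : ι * h ≤ b := by rw [hb]; exact Nat.le_ceil _
  have hb2 : (b : ℝ) ≤ ι * h + 1 := by rw [hb]; exact (Nat.ceil_lt_add_one (by positivity)).le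
  have hu1 : 1 ≤ t := by
    have : (0 : ℝ) < t := lt_of_lt_of_le (by positivity) ht1
    exact_mod_cast this
  have hcf2 : ∀ ω, 0 < q ω → ∀ m, |coeff m (Q ω)| ≤ (2 : ℝ) ^ b := by
    intro ω hω m
    refine (hcf ω hω m).trans ?_
    rw [← Real.rpow_natCast]
    exact Real.rpow_le_rpow_of_exponent_le (by norm_num) hb1
  -- the grid
  obtain ⟨a, ha⟩ : ∃ a : ℕ → ℕ, a = fun j => min (j * t) H := ⟨_, rfl⟩
  have haM : a M = H := by
    rw [ha]
    refine min_eq_right ?_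
    have h1 : (1 : ℝ) / η ≤ M := by rw [hM]; exact Nat.le_ceil _
    have h2 : (H : ℝ) ≤ M * t := by
      have h3 : (H : ℝ) ≤ h := by nlinarith
      have h4 : (h : ℝ) = 1 / η * (η * h) := by field_simp
      calc (H : ℝ) ≤ h := h3
        _ = 1 / η * (η * h) := h4
        _ ≤ M * t := mul_le_mul h1 ht1 (by positivity) (by positivity)
    exact_mod_cast h2
  have ha0 : a 0 = 0 := by
    rw [ha]
    simp
  have haH : ∀ j, a j ≤ H := fun j => by rw [ha]; exact min_le_right _ _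
  have hstep : ∀ j, a (j - 1) ≤ a j ∧ a j ≤ a (j - 1) + t := by
    intro j
    rw [ha]
    rcases Nat.eq_zero_or_pos j with rfl | hj
    · simp
    · obtain ⟨i, rfl⟩ : ∃ i, j = i + 1 := ⟨j - 1, by omega⟩
      have e : (i + 1) * t = i * t + t := by ring
      simp only [Nat.add_sub_cancel]
      rw [e]
      constructor <;> omega
  have hlab : ∀ ω, ∃ j : Fin (M + 1), Lg H (Q ω) →
      (Lg (a j) (Q ω) ∧ ((j : ℕ) = 0 ∨ ¬ Lg (a (j - 1)) (Q ω))) := by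
    intro ω
    by_cases hF : Lg H (Q ω)
    · have hex : ∃ j, Lg (a j) (Q ω) := ⟨M, by rw [haM]; exact hF⟩
      have hle : Nat.find hex ≤ M := Nat.find_min' hex (by rw [haM]; exact hF)
      refine ⟨⟨Nat.find hex, by omega⟩, fun _ => ⟨Nat.find_spec hex, ?_⟩⟩
      rcases Nat.eq_zero_or_pos (Nat.find hex) with hz | hz
      · exact Or.inl hz
      · right
        exact Nat.find_min hex (by simp only; omega)
    · exact ⟨0, fun h => absurd h hF⟩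
  choose f hf using hlab
  obtain ⟨j, hj⟩ := pig q (fun ω => Lg H (Q ω)) f
  obtain ⟨E, hE⟩ : ∃ E : Ω → Prop, E = fun ω => Lg H (Q ω) ∧ f ω = j := ⟨_, rfl⟩
  rw [← hE, Fintype.card_fin] at hj
  have hρE : ρ ≤ Pb q E := by
    rw [hρ, div_le_iff₀ (by positivity)]
    push_cast at hj
    linarith
  have hEp : 0 < Pb q E := lt_of_lt_of_le hρ0 hρE
  obtain ⟨p, hp⟩ : ∃ p : Ω → ℝ, p = cond q E True := ⟨_, rfl⟩
  have hpl : IsLaw p := by rw [hp]; exact isLaw_ev hq E hEp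
  have hpq : ∀ ω, 0 < p ω → 0 < q ω ∧ E ω := by
    intro ω hω
    rw [hp] at hω
    exact ev_pos h0 E hω
  obtain ⟨r, hr⟩ : ∃ r : ℕ, r = a (j - 1) := ⟨_, rfl⟩
  have hrH : (r : ℝ) ≤ (1 - ε) * h := by
    refine le_trans ?_ hH
    rw [hr]
    exact_mod_cast haH _
  have hrh : r ≤ h := by
    have h1 : (r : ℝ) ≤ h := by nlinarith
    exact_mod_cast h1
  obtain ⟨t', ht'⟩ : ∃ t' : ℕ, a j = r + t' ∧ t' ≤ t :=
    ⟨a j - r, by rw [hr]; have := hstep j; omega, by rw [hr]; have := hstep j; omega⟩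
  -- fullness on the event
  obtain ⟨θ, hθ⟩ : ∃ θ : ℝ, θ = (ι * h + Real.log 2) / Pb q E := ⟨_, rfl⟩
  have hθ0 : 0 ≤ θ := by rw [hθ]; positivity
  have hθ1 : θ ≤ (ι * h + 1) / ρ := by
    rw [hθ]
    refine div_le_div₀ (by positivity) (by linarith) hρ0 hρE
  have hful2 : s * (X * Real.log 2) - θ ≤ CH p Y (fun ω => (L ω, Z ω)) := by
    have h1 := full_ev hq E hEp Y (fun ω => (L ω, Z ω)) (M := s * (X * Real.log 2)) (a := 0)
      le_rfl (fun hF => by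
        have hql : IsLaw (cond q E False) :=
          ⟨cond_nonneg h0 E False, sum_cond q E (by rw [law_False]; exact hF.ne')⟩
        rw [add_zero]
        exact CH_box hql Y hY _) hful
    rw [add_zero] at h1
    rw [hθ, hp]
    exact h1
  -- independence on the event
  have hind2 : CH p (fun ω => dg h (nu ω)) Z ≤
      CH p (fun ω => dg h (nu ω)) (fun ω => (B ω, Z ω)) + θ := by
    have h1 := mi_event hq (fun ω => dg h (nu ω)) Z (fun ω => (B ω, Z ω))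
      (fun ω ω' _ _ e => congrArg Prod.snd e) hind E
    rw [← hp] at h1
    have h2 : Pb q E * θ = ι * h + Real.log 2 := by
      rw [hθ]
      field_simp
    rw [← h2, ← mul_add] at h1
    exact le_of_mul_le_mul_left h1 hEp
  have h1 := rows_ind hpl nu B Z hrh hind2
  have h2 := hnf E hρE r hrH
  rw [← hp] at h2
  have h3 := hwin Ω ζ κ' p Z L Y nu cst Q r h X b t' t θ hpl hrh hX hu1 hθ0 hY
    (fun ω ω' x y e => hdQ ω ω' (hpq ω x).1 (hpq ω' y).1 e)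
    (fun ω ω' x y e => hdc ω ω' (hpq ω x).1 (hpq ω' y).1 e)
    (fun ω x => hdeg ω (hpq ω x).1) (fun ω x => hc0 ω (hpq ω x).1)
    (fun ω x m => by
      have hω := hpq ω x
      have hEω := hω.2
      rw [hE] at hEω
      have p2r : (0 : ℝ) < 2 ^ r := by positivity
      rcases eq_or_ne m 0 with rfl | hm
      · rw [hc0 ω hω.1, abs_zero]
        positivity
      · rcases (hf ω hEω.1).2 with hz | hz
        · rw [hEω.2] at hz
          have e : r = 0 := by rw [hr, hz]; exact ha0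
          rw [e, pow_zero, div_one]
          exact hcf2 ω hω.1 m
        · rw [hEω.2, ← hr] at hz
          unfold Lg at hz
          push Not at hz
          refine (hz m hm).trans ?_
          exact div_le_div_of_nonneg_right (one_le_pow₀ (by norm_num)) p2r.le)
    (fun ω x => by
      have hω := hpq ω x
      have hEω := hω.2
      rw [hE] at hEω
      have h4 := (hf ω hEω.1).1
      rw [hEω.2, ht'.1] at h4
      exact h4)
    (fun ω x => hnu ω (hpq ω x).1) hful2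
  -- the arithmetic
  have ht'2 : (t' : ℝ) ≤ t := by exact_mod_cast ht'.2
  have g1 : ε * h ≤ (h : ℝ) - r := by linarith
  have g2 : W * h ≤ c₀ * (((h : ℝ) - r) * Real.log 2) := by
    rw [hW]
    have : c₀ * ε * Real.log 2 * h = c₀ * (ε * h * Real.log 2) := by ring
    rw [this]
    exact mul_le_mul_of_nonneg_left (mul_le_mul_of_nonneg_right g1 hl2.le) hc₀.le
  have g3 : C * (h * (θ + 1) / t) ≤ C * (((ι * h + 1) / ρ + 1) / η) := by
    refine mul_le_mul_of_nonneg_left ?_ hC0.le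
    have t0 : (0 : ℝ) < t := by exact_mod_cast hu1
    rw [div_le_div_iff₀ t0 hη0]
    have e1 : θ + 1 ≤ (ι * h + 1) / ρ + 1 := by linarith
    calc h * (θ + 1) * η = (θ + 1) * (η * h) := by ring
      _ ≤ ((ι * h + 1) / ρ + 1) * t := mul_le_mul e1 ht1 (by positivity) (by positivity)
  have g4 : c₀ * (((h : ℝ) - r) * Real.log 2) ≤
      θ + (C * (t' + b + t + 1) + C * (h * (θ + 1) / t)) := by
    have : (1 - c₀) * (((h : ℝ) - r) * Real.log 2) =
      ((h : ℝ) - r) * Real.log 2 - c₀ * (((h : ℝ) - r) * Real.log 2) := by ring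
    linarith
  have g5 : C * ((t' : ℝ) + b + t + 1) ≤ C * (2 * (η * h) + ι * h + 4) :=
    mul_le_mul_of_nonneg_left (by linarith) hC0.le
  have g6 : (ι * h + 1) / ρ + (C * (2 * (η * h) + ι * h + 4) + C * (((ι * h + 1) / ρ + 1) / η)) =
      ι * G * h + R + C * η * 2 * h := by
    rw [hG, hR]
    field_simp
    ring
  have g7 : ι * G = W / 8 := by
    rw [hι]
    field_simp
  have g8 : C * η = W / 8 := by
    rw [hη]
    field_simp
  have g9 : R ≤ W * h / 8 := by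
    have : 8 * R / W ≤ h := by linarith
    rw [div_le_iff₀ hW0] at this
    linarith
  have g10 : 0 < W * h := by positivity
  rw [g7, g8] at g6
  have g11 : W / 8 * h + R + W / 8 * 2 * h = 3 / 8 * (W * h) + R := by ring
  linarith

/-- **The third key.** -/
theorem key3 (s K : ℕ) {c₀ ε : ℝ} (hc₀ : 0 < c₀) (hε : 0 < ε) :
    ∃ (h₁ : ℕ) (κ ρ ι : ℝ), 0 < κ ∧ 0 < ρ ∧ 0 < ι ∧ ∀ (Ω ζ β κ' : Type) [Fintype Ω] (q : Ω → ℝ)
      (Z : Ω → ζ) (B : Ω → β) (L : Ω → κ') (Y : Ω → Fin s → ℤ) (nu cst : Ω → ℝ) (Q : Ω → Pl s)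
      (X h : ℕ), IsLaw q → h₁ ≤ h → h ≤ X → (∀ ω i, 0 ≤ Y ω i ∧ Y ω i < 2 ^ X) →
      Det q (fun ω => (L ω, Z ω)) Q → Det q (fun ω => (L ω, Z ω)) cst →
      (∀ ω, 0 < q ω → (Q ω).totalDegree ≤ K) → (∀ ω, 0 < q ω → coeff 0 (Q ω) = 0) →
      (∀ ω, 0 < q ω → ∀ m, |coeff m (Q ω)| ≤ (2 : ℝ) ^ (ι * h)) →
      (∀ ω, 0 < q ω →
        |nu ω - cst ω - eval (fun i => ((Y ω i : ℤ) : ℝ) / 2 ^ X) (Q ω)| ≤ 1 / 2 ^ h) →
      s * (X * Real.log 2) - ι * h ≤ CH q Y (fun ω => (L ω, Z ω)) →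
      CH q (fun ω => dg h (nu ω)) Z ≤
        CH q (fun ω => dg h (nu ω)) (fun ω => (B ω, Z ω)) + ι * h →
      (∀ E : Ω → Prop, ρ ≤ Pb q E → ∀ r : ℕ, (r : ℝ) ≤ (1 - κ) * h →
        CH (cond q E True) (fun ω => dg h (nu ω)) (fun ω => (dg r (nu ω), (B ω, Z ω))) ≤
          (1 - c₀) * (((h : ℝ) - r) * Real.log 2)) →
      ∀ H : ℕ, (H : ℝ) ≤ (1 - ε) * h → Pb q (fun ω => Lg H (Q ω)) ≤ ε := by
  have h := key3e s K 0 hc₀ hε
  simpa only [pow_zero] using h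

end Pool.KEY3
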