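import Pool.Agent.H81.JM.Arr
import Pool.Agent.H81.XBG.Def
import Pool.Agent.H3.JM.Prf
import Pool.Agent.H30.MIC.Samp

/-!
# The popular profile of a random polynomial

`f ω` is a random polynomial (array of coefficients), `y ω` a random point. For each order `j` the
size of the Taylor coefficients of order `j` of `f ω` at `y ω` is recorded up to the factor `2 ^ h`.
There are few records, so on an event of probability at least the inverse of their number all sizes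
are constant. On this event the supremum of `|f|` on the cell of side `2 ^ (-s)` at `y` is
`2 ^ (-g s)` with `g s = min_j (j s + ab j)`, up to the factor `C 2 ^ h`.
-/

set_option autoImplicit false

namespace Pool.JMP

open Finset Real Pool.JMN
open Pool.Agent.H49.Ent Pool.Agent.H32.Dense Pool.STK Pool.BFL Pool.MIC30 Pool.XBG

variable {k K : ℕ}

/-! ### The size of one order -/

/-- The largest Taylor coefficient of order `j` at `z`. -/
noncomputable def osz (z : Fin k → ℝ) (q : (Fin k → Fin (K + 1)) → ℝ) (j : ℕ) : ℝ :=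
  (Finset.univ : Finset (Fin k → Fin (K + 1))).sup' ⟨fun _ => 0, Finset.mem_univ _⟩
    fun al => if tdg al = j then |shf z q al| else 0

theorem le_osz (z : Fin k → ℝ) (q : (Fin k → Fin (K + 1)) → ℝ) (al : Fin k → Fin (K + 1)) :
    |shf z q al| ≤ osz z q (tdg al) := by
  unfold osz
  refine le_trans ?_ (Finset.le_sup' (f := fun be : Fin k → Fin (K + 1) =>
    if tdg be = tdg al then |shf z q be| else 0) (Finset.mem_univ al))
  simp

theorem osz_nonneg (z : Fin k → ℝ) (q : (Fin k → Fin (K + 1)) → ℝ) (j : ℕ) : 0 ≤ osz z q j := by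
  unfold osz
  refine le_trans ?_ (Finset.le_sup' (f := fun be : Fin k → Fin (K + 1) =>
    if tdg be = j then |shf z q be| else 0) (Finset.mem_univ fun _ => 0))
  show 0 ≤ if tdg (fun _ => 0 : Fin k → Fin (K + 1)) = j then |shf z q fun _ => 0| else 0
  split_ifs
  · exact abs_nonneg _
  · exact le_rfl

theorem osz_att (z : Fin k → ℝ) (q : (Fin k → Fin (K + 1)) → ℝ) {j : ℕ} (h : 0 < osz z q j) :
    ∃ al, tdg al = j ∧ |shf z q al| = osz z q j := by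
  obtain ⟨al, -, hal⟩ := Finset.exists_mem_eq_sup' (s := (Finset.univ : Finset
    (Fin k → Fin (K + 1)))) ⟨fun _ => 0, Finset.mem_univ _⟩
    (fun al => if tdg al = j then |shf z q al| else 0)
  have h1 : osz z q j = if tdg al = j then |shf z q al| else 0 := hal
  by_cases h2 : tdg al = j
  · rw [if_pos h2] at h1
    exact ⟨al, h2, h1.symm⟩
  · rw [if_neg h2] at h1
    exact absurd h1 h.ne'

theorem osz_le {z : Fin k → ℝ} {q : (Fin k → Fin (K + 1)) → ℝ} {j : ℕ} {m : ℝ} (hm : 0 ≤ m)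
    (h : ∀ al, tdg al = j → |shf z q al| ≤ m) : osz z q j ≤ m := by
  unfold osz
  refine Finset.sup'_le _ _ fun al _ => ?_
  split_ifs with h1
  · exact h al h1
  · exact hm

/-! ### The number of digits, with a cap -/

open Classical in
/-- The number of digits of `t`, up to `h` and capped at `h * P`. -/
noncomputable def dg (h P : ℕ) (t : ℝ) : ℕ :=
  Nat.findGreatest (fun n => t * 2 ^ n ≤ 2 ^ h) (h * P)

theorem dg_le (h P : ℕ) (t : ℝ) : dg h P t ≤ h * P := by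
  unfold dg
  exact Nat.findGreatest_le _

theorem dg_up {h P : ℕ} {t : ℝ} (ht : t ≤ 2 ^ h) : t * 2 ^ dg h P t ≤ 2 ^ h := by
  classical
  unfold dg
  exact Nat.findGreatest_spec (P := fun n => t * 2 ^ n ≤ 2 ^ h) (Nat.zero_le _) (by simpa using ht)

theorem dg_low {h P : ℕ} {t : ℝ} (h1 : dg h P t < h * P) : 2 ^ h < t * 2 ^ (dg h P t + 1) := by
  classical
  by_contra hcon
  push Not at hcon
  have h2 := Nat.le_findGreatest (P := fun n => t * 2 ^ n ≤ 2 ^ h) (m := dg h P t + 1)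
    (n := h * P) (by omega) hcon
  have h3 : Nat.findGreatest (fun n => t * 2 ^ n ≤ 2 ^ h) (h * P) = dg h P t := rfl
  rw [h3] at h2
  omega

/-- The bucket. -/
noncomputable def bk (h P : ℕ) (t : ℝ) : ℕ := dg h P t / h

theorem bk_le (h P : ℕ) (t : ℝ) : bk h P t ≤ P := by
  unfold bk
  exact Nat.div_le_of_le_mul (dg_le h P t)

theorem bk_up {h P : ℕ} {t : ℝ} (ht0 : 0 ≤ t) (ht : t ≤ 2 ^ h) :
    t ≤ 2 ^ h / 2 ^ (h * bk h P t) := by
  rw [le_div_iff₀ (by positivity)]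
  refine le_trans ?_ (dg_up (P := P) ht)
  refine mul_le_mul_of_nonneg_left ?_ ht0
  exact pow_le_pow_right₀ (by norm_num) (Nat.mul_div_le _ _)

theorem bk_low {h P : ℕ} (hh : 1 ≤ h) {t : ℝ} (h1 : h * bk h P t < h * P) :
    1 / 2 ^ (h * bk h P t + h) ≤ t := by
  have h2 : dg h P t < h * P := by
    have h3 : bk h P t < P := Nat.lt_of_mul_lt_mul_left h1
    unfold bk at h3
    exact (Nat.div_lt_iff_lt_mul (by omega)).1 h3 |>.trans_le (by rw [Nat.mul_comm])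
  have h4 := dg_low h2
  have h5 : dg h P t < h * bk h P t + h := by
    unfold bk
    have := Nat.lt_mul_div_succ (dg h P t) (show 0 < h by omega)
    rw [Nat.mul_add, Nat.mul_one] at this
    exact this
  rw [div_le_iff₀ (by positivity)]
  have h6 : (2 : ℝ) ^ h < t * 2 ^ dg h P t * 2 := by
    rw [pow_succ] at h4
    linarith [h4, mul_assoc t ((2 : ℝ) ^ dg h P t) 2]
  have h7 : (2 : ℝ) ≤ 2 ^ h := by
    calc (2 : ℝ) = 2 ^ 1 := (pow_one _).symm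
      _ ≤ 2 ^ h := pow_le_pow_right₀ (by norm_num) hh
  have h8 : 1 < t * 2 ^ dg h P t := by linarith
  have h9 : 0 < t := by
    by_contra hcon
    push Not at hcon
    have : t * 2 ^ dg h P t ≤ 0 := mul_nonpos_of_nonpos_of_nonneg hcon (by positivity)
    linarith
  have h10 : t * (2 : ℝ) ^ dg h P t ≤ t * 2 ^ (h * bk h P t + h) :=
    mul_le_mul_of_nonneg_left (pow_le_pow_right₀ (by norm_num) h5.le) h9.le
  linarith

/-! ### The pigeonhole principle -/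

/-- One value of a random variable with few values has a large probability. -/
theorem pig {Ω T : Type} [Fintype Ω] [Fintype T] [Nonempty T] (p : Ω → ℝ)
    (F : Ω → Prop) (f : Ω → T) :
    ∃ t, Pb p F ≤ Fintype.card T * Pb p fun ω => F ω ∧ f ω = t := by
  classical
  have h1 : Pb p F = ∑ t : T, Pb p fun ω => F ω ∧ f ω = t := by
    unfold Pb
    rw [Finset.sum_comm]
    refine Finset.sum_congr rfl fun ω _ => ?_
    by_cases h : F ω
    · have h2 : ∀ t, (if F ω ∧ f ω = t then p ω else 0) = if f ω = t then p ω else 0 := by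
        intro t
        simp [h]
      rw [if_pos h]
      simp only [h, true_and]
      rw [Finset.sum_ite_eq, if_pos (Finset.mem_univ _)]
    · simp [h]
  obtain ⟨t, -, ht⟩ := Finset.exists_max_image (Finset.univ : Finset T)
    (fun t => Pb p fun ω => F ω ∧ f ω = t) Finset.univ_nonempty
  refine ⟨t, ?_⟩
  rw [h1]
  refine (Finset.sum_le_sum fun s _ => ht s (Finset.mem_univ s)).trans (le_of_eq ?_)
  rw [Finset.sum_const, Finset.card_univ, nsmul_eq_mul]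

/-- **The popular profile.** -/
theorem prof_pop {Ω : Type} [Fintype Ω] (p : Ω → ℝ) {h : ℕ} (hh : 1 ≤ h) (P : ℕ)
    (y : Ω → Fin k → ℝ) (f : Ω → (Fin k → Fin (K + 1)) → ℝ) (F : Ω → Prop)
    (hF : ∀ ω, F ω → 0 < p ω → ∀ al, |shf (y ω) (f ω) al| ≤ 2 ^ h) :
    ∃ (ab : ℕ → ℕ) (E : Ω → Prop), (∀ ω, E ω → F ω) ∧
      Pb p F ≤ ((P : ℝ) + 1) ^ (k * K + 1) * Pb p E ∧ (∀ j, ab j ≤ h * P) ∧
      (∀ ω, E ω → 0 < p ω → ∀ al, |shf (y ω) (f ω) al| ≤ 2 ^ h / 2 ^ ab (tdg al)) ∧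
      ∀ ω, E ω → 0 < p ω → ∀ j ≤ k * K, ab j < h * P →
        ∃ al, tdg al = j ∧ 1 / 2 ^ (ab j + h) ≤ |shf (y ω) (f ω) al| := by
  classical
  obtain ⟨m, hm⟩ : ∃ m : Ω → Fin (k * K + 1) → Fin (P + 1), m = fun ω j =>
    ⟨bk h P (osz (y ω) (f ω) j), Nat.lt_succ_of_le (bk_le h P _)⟩ := ⟨_, rfl⟩
  obtain ⟨t, ht⟩ := pig p F m
  obtain ⟨ab, hab⟩ : ∃ ab : ℕ → ℕ, ab = fun j =>
    if hj : j < k * K + 1 then h * (t ⟨j, hj⟩ : ℕ) else 0 := ⟨_, rfl⟩
  have h0 : ∀ (ω : Ω), m ω = t → ∀ j, j ≤ k * K → ab j = h * bk h P (osz (y ω) (f ω) j) := by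
    intro ω hω j hj
    have hj' : j < k * K + 1 := by omega
    rw [hab]
    simp only [hj', dif_pos]
    rw [← hω, hm]
  refine ⟨ab, fun ω => F ω ∧ m ω = t, fun ω h => h.1, ?_, ?_, ?_, ?_⟩
  · refine ht.trans (le_of_eq ?_)
    rw [Fintype.card_fun, Fintype.card_fin, Fintype.card_fin]
    push_cast
    rfl
  · intro j
    rw [hab]
    simp only
    split_ifs with hj
    · exact Nat.mul_le_mul_left _ (Nat.lt_succ_iff.1 (t ⟨j, hj⟩).isLt)
    · exact Nat.zero_le _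
  · rintro ω ⟨hFω, hmω⟩ hω al
    rw [h0 ω hmω _ (tdg_le al)]
    refine (le_osz _ _ al).trans (bk_up (osz_nonneg _ _ _) ?_)
    exact osz_le (by positivity) fun be _ => hF ω hFω hω be
  · rintro ω ⟨hFω, hmω⟩ hω j hj hlt
    rw [h0 ω hmω j hj] at hlt ⊢
    have h1 := bk_low hh hlt
    have h2 : 0 < osz (y ω) (f ω) j := lt_of_lt_of_le (by positivity) h1
    obtain ⟨al, hal, hal2⟩ := osz_att _ _ h2
    exact ⟨al, hal, by rw [hal2]; exact h1⟩

/-! ### The suprema on the boxes -/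

theorem pw_sc (i X j n : ℕ) (t : ℝ) : t / 2 ^ n * (1 / (2 : ℝ) ^ (i * X)) ^ j =
    t / 2 ^ (j * (i * X) + n) := by
  rw [div_pow, one_pow, ← pow_mul, pow_add, Nat.mul_comm (i * X) j]
  field_simp

/-- The supremum on the box of depth `i` from the profile. -/
theorem sup_le_gp {X h : ℕ} {ab : ℕ → ℕ} {y : Fin k → ℝ} {f : (Fin k → Fin (K + 1)) → ℝ}
    (up : ∀ al, |shf y f al| ≤ 2 ^ h / 2 ^ ab (tdg al)) (i : ℕ) {x : Fin k → ℝ}
    (hx : ∀ l, |x l - y l| ≤ 1 / 2 ^ (i * X)) :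
    |ev f x| ≤ ((K : ℝ) + 1) ^ k * (2 ^ h / 2 ^ Pool.R1P.gp X ab (k * K) i) := by
  have h1 : ev f x = ev (shf y f) fun l => x l - y l := by
    rw [ev_shf]
    exact congrArg _ (funext fun l => by ring)
  rw [h1]
  refine ev_le (ρ := 1 / 2 ^ (i * X)) (fun a => ?_) hx
  refine (mul_le_mul_of_nonneg_right (up a) (by positivity)).trans ?_
  rw [pw_sc]
  refine div_le_div_of_nonneg_left (by positivity) (by positivity) ?_
  exact pow_le_pow_right₀ (by norm_num) (Pool.R1P.gp_le i (tdg_le a))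

/-- A large value on the box of depth `i` bounds the profile from above. -/
theorem gp_le_of_big (k K : ℕ) : ∃ c : ℕ, ∀ (X h m i : ℕ) (ab : ℕ → ℕ) (y : Fin k → ℝ)
    (f : (Fin k → Fin (K + 1)) → ℝ), (∀ al, |shf y f al| ≤ 2 ^ h / 2 ^ ab (tdg al)) →
    ∀ x : Fin k → ℝ, (∀ l, |x l - y l| ≤ 1 / 2 ^ (i * X)) → 1 / 2 ^ m ≤ |ev f x| →
    Pool.R1P.gp X ab (k * K) i ≤ m + h + c := by
  obtain ⟨c, hc⟩ : ∃ n : ℕ, ((K : ℝ) + 1) ^ k ≤ 2 ^ n := by
    obtain ⟨n, hn⟩ := pow_unbounded_of_one_lt (((K : ℝ) + 1) ^ k) (by norm_num : (1 : ℝ) < 2)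
    exact ⟨n, hn.le⟩
  refine ⟨c, fun X h m i ab y f up x hx hm => ?_⟩
  have h1 := hm.trans (sup_le_gp up i hx)
  obtain ⟨g, hg⟩ : ∃ g, g = Pool.R1P.gp X ab (k * K) i := ⟨_, rfl⟩
  rw [← hg] at h1 ⊢
  have h2 : (2 : ℝ) ^ g ≤ 2 ^ (m + h + c) := by
    have h3 : (1 : ℝ) / 2 ^ m ≤ 2 ^ c * (2 ^ h / 2 ^ g) :=
      h1.trans (mul_le_mul_of_nonneg_right hc (by positivity))
    rw [← mul_div_assoc, div_le_div_iff₀ (by positivity) (by positivity), one_mul] at h3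
    refine h3.trans (le_of_eq ?_)
    rw [pow_add, pow_add]
    ring
  exact (pow_le_pow_iff_right₀ (by norm_num : (1 : ℝ) < 2)).1 h2

/-- A bound on a box of side `2 ^ (-i X)` near `y` bounds the profile from below. -/
theorem gp_ge_of_sup (k K : ℕ) : ∃ c : ℕ, ∀ (X h m i M : ℕ) (ab : ℕ → ℕ) (y z : Fin k → ℝ)
    (f : (Fin k → Fin (K + 1)) → ℝ), (∀ j ≤ k * K, ab j < M →
      ∃ al, tdg al = j ∧ 1 / 2 ^ (ab j + h) ≤ |shf y f al|) →
    (∀ l, |y l - z l| ≤ 1 / 2 ^ (i * X)) →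
    (∀ x : Fin k → ℝ, (∀ l, z l ≤ x l ∧ x l ≤ z l + 1 / 2 ^ (i * X)) → |ev f x| ≤ 1 / 2 ^ m) →
    Pool.R1P.gp X ab (k * K) i < M → m ≤ Pool.R1P.gp X ab (k * K) i + h + c := by
  obtain ⟨C, hC1, hC⟩ := coef_le k K
  obtain ⟨c, hc⟩ : ∃ n : ℕ, cK k K * C ≤ 2 ^ n := by
    obtain ⟨n, hn⟩ := pow_unbounded_of_one_lt (cK k K * C) (by norm_num : (1 : ℝ) < 2)
    exact ⟨n, hn.le⟩
  refine ⟨c, fun X h m i M ab y z f low hyz hf hM => ?_⟩
  obtain ⟨j, hj, hg⟩ := Pool.R1P.gp_ex X ab (k * K) i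
  obtain ⟨al, hal, hlow⟩ := low j hj (by omega)
  have h1 : ∀ b, |shf z f b| * (1 / (2 : ℝ) ^ (i * X)) ^ tdg b ≤ C * (1 / 2 ^ m) := by
    refine hC (shf z f) (1 / 2 ^ (i * X)) (1 / 2 ^ m) (by positivity) fun x hx => ?_
    rw [ev_shf]
    refine hf _ fun l => ?_
    constructor
    · linarith [(hx l).1]
    · linarith [(hx l).2]
  have h2 := shf_le (z := fun l => y l - z l) (q := shf z f) (ρ := 1 / 2 ^ (i * X))
    (m := C * (1 / 2 ^ m)) (by positivity) (by positivity) hyz al fun b _ => h1 b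
  rw [shf_shf] at h2
  have h3 : (fun l => z l + (y l - z l)) = y := funext fun l => by ring
  rw [h3, hal] at h2
  have h4 : 1 / 2 ^ (ab j + h) * (1 / (2 : ℝ) ^ (i * X)) ^ j ≤ cK k K * (C * (1 / 2 ^ m)) :=
    (mul_le_mul_of_nonneg_right hlow (by positivity)).trans h2
  rw [pw_sc] at h4
  have h5 : (1 : ℝ) / 2 ^ (j * (i * X) + (ab j + h)) ≤ 2 ^ c * (1 / 2 ^ m) := by
    refine h4.trans ?_
    rw [← mul_assoc]
    exact mul_le_mul_of_nonneg_right hc (by positivity)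
  rw [mul_one_div, div_le_div_iff₀ (by positivity) (by positivity), one_mul, ← pow_add] at h5
  have h6 := (pow_le_pow_iff_right₀ (by norm_num : (1 : ℝ) < 2)).1 h5
  omega

/-- **The orders after a doubling scale.** -/
theorem slope_le {X : ℕ} (hX : 1 ≤ X) {ab : ℕ → ℕ} {D s₁ r : ℕ}
    (hd : Pool.R1P.gp X ab D s₁ < Pool.R1P.gp X ab D 0 + (r + 1) * (s₁ * X)) :
    ∀ s, s₁ ≤ s → Pool.R1P.mi X ab D s ≤ r ∧
      Pool.R1P.gp X ab D (s + 1) ≤ Pool.R1P.gp X ab D s + r * X := by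
  have h1 : Pool.R1P.mi X ab D s₁ ≤ r := by
    have h2 := Pool.R1P.gp_mi X ab D s₁
    have h3 := Pool.R1P.gp_le (X := X) (ab := ab) 0 (Pool.R1P.mi_le X ab D s₁)
    rw [Nat.zero_mul, Nat.mul_zero, Nat.zero_add] at h3
    by_contra hcon
    push Not at hcon
    have h4 := Nat.mul_le_mul_right (s₁ * X) (show r + 1 ≤ Pool.R1P.mi X ab D s₁ by omega)
    omega
  have h2 : ∀ n, Pool.R1P.mi X ab D (s₁ + n) ≤ r := by
    intro n
    induction n with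
    | zero => simpa using h1
    | succ n ih =>
      have := Pool.R1P.mi_anti hX ab D (s₁ + n)
      rw [← Nat.add_assoc]
      omega
  intro s hs
  obtain ⟨n, rfl⟩ := Nat.exists_eq_add_of_le hs
  refine ⟨h2 n, ?_⟩
  have h3 := Pool.R1P.gp_le (X := X) (ab := ab) (s₁ + n + 1) (Pool.R1P.mi_le X ab D (s₁ + n))
  have h4 := Pool.R1P.gp_mi X ab D (s₁ + n)
  have h5 := Nat.mul_le_mul_right X (h2 n)
  have e1 : Pool.R1P.mi X ab D (s₁ + n) * ((s₁ + n + 1) * X) =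
      Pool.R1P.mi X ab D (s₁ + n) * ((s₁ + n) * X) + Pool.R1P.mi X ab D (s₁ + n) * X := by ring
  omega

/-! ### The popular profile of the difference of two leaves -/

/-- The box of depth `s` which contains `y`. -/
def InC (X : ℕ) {Ω : Type} (y : Ω → Fin k → ℝ) (s : ℕ) (ω : Ω) (x : Fin k → ℝ) : Prop :=
  ∀ l, crn X s (cel X y s ω) l ≤ x l ∧ x l ≤ crn X s (cel X y s ω) l + 1 / 2 ^ (s * X)

theorem near_crn (X : ℕ) {Ω : Type} (y : Ω → Fin k → ℝ) (s : ℕ) (ω : Ω) (l : Fin k) :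
    |y ω l - crn X s (cel X y s ω) l| ≤ 1 / 2 ^ (s * X) := by
  rw [abs_sub_comm]
  exact crn_near X y s ω l

theorem InC.near {X : ℕ} {Ω : Type} {y : Ω → Fin k → ℝ} {s : ℕ} {ω : Ω} {x : Fin k → ℝ}
    (h : InC X y s ω x) (l : Fin k) : |x l - y ω l| ≤ 1 / 2 ^ (s * X) := by
  have h1 := crn_sub X y s ω l
  have h2 := xx_nonneg X y s ω l
  have h3 := (xx_lt X y s ω l).le
  obtain ⟨h4, h5⟩ := h l
  have hp : (0 : ℝ) < 2 ^ (s * X) := by positivity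
  have h6 : 0 ≤ xx X y s ω l / 2 ^ (s * X) := div_nonneg h2 hp.le
  have h7 : xx X y s ω l / 2 ^ (s * X) ≤ 1 / 2 ^ (s * X) :=
    div_le_div_of_nonneg_right h3 hp.le
  rw [abs_le]
  constructor <;> linarith

/-- **The popular profile, from the suprema on boxes.** On the event `F` the polynomial `f` is
larger than `2 ^ (-P₀)` somewhere on the unit box and smaller than `2 ^ (-P₁)` on the box of depth
`S`. There is an event of not too small probability on which all the sizes are constant. -/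
theorem prof_ev (k K : ℕ) : ∃ c : ℕ, ∀ {Ω : Type} [Fintype Ω] (p : Ω → ℝ) (X S h P P₀ P₁ : ℕ)
    (y : Ω → Fin k → ℝ) (f : Ω → (Fin k → Fin (K + 1)) → ℝ) (F : Ω → Prop), 1 ≤ h →
    k * K * (S * X) + P₀ + h + c < h * P →
    (∀ ω, F ω → 0 < p ω → ∀ al, |shf (y ω) (f ω) al| ≤ 2 ^ h) →
    (∀ ω, F ω → 0 < p ω → ∃ x : Fin k → ℝ, (∀ l, |x l - y ω l| ≤ 1) ∧ 1 / 2 ^ P₀ ≤ |ev (f ω) x|) →
    (∀ ω, F ω → 0 < p ω → ∀ x, InC X y S ω x → |ev (f ω) x| ≤ 1 / 2 ^ P₁) → 0 < Pb p F →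
    ∃ (ab : ℕ → ℕ) (E : Ω → Prop), (∀ ω, E ω → F ω) ∧ 0 < Pb p E ∧
      Pb p F ≤ ((P : ℝ) + 1) ^ (k * K + 1) * Pb p E ∧
      (∀ ω, E ω → 0 < p ω → ∀ al, |shf (y ω) (f ω) al| ≤ 2 ^ h / 2 ^ ab (tdg al)) ∧
      (∀ ω, E ω → 0 < p ω → ∀ i ≤ S, ∀ j ≤ k * K,
        Pool.R1P.gp X ab (k * K) i = j * (i * X) + ab j →
        ∃ al, tdg al = j ∧ 1 / 2 ^ (ab j + h) ≤ |shf (y ω) (f ω) al|) ∧
      Pool.R1P.gp X ab (k * K) 0 ≤ P₀ + h + c ∧
      P₁ ≤ Pool.R1P.gp X ab (k * K) S + h + c ∧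
      ∀ s₁ u r, 1 ≤ X → s₁ ≤ S → u + 2 * h + 2 * c < (r + 1) * (s₁ * X) →
        (∀ ω, F ω → 0 < p ω → ∀ n : ℕ, (∀ x, InC X y s₁ ω x → |ev (f ω) x| ≤ 1 / 2 ^ (n + u)) →
          ∀ x : Fin k → ℝ, (∀ l, 0 ≤ x l ∧ x l ≤ 1) → |ev (f ω) x| ≤ 1 / 2 ^ n) →
        (∀ ω l, 0 ≤ y ω l ∧ y ω l ≤ 1) →
        ∀ s, s₁ ≤ s → Pool.R1P.mi X ab (k * K) s ≤ r ∧
          Pool.R1P.gp X ab (k * K) (s + 1) ≤ Pool.R1P.gp X ab (k * K) s + r * X := by
  classical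
  obtain ⟨c₁, hc₁⟩ := gp_le_of_big k K
  obtain ⟨c₂, hc₂⟩ := gp_ge_of_sup k K
  obtain ⟨c₃, hc₃⟩ : ∃ n : ℕ, ((K : ℝ) + 1) ^ k ≤ 2 ^ n := by
    obtain ⟨n, hn⟩ := pow_unbounded_of_one_lt (((K : ℝ) + 1) ^ k) (by norm_num : (1 : ℝ) < 2)
    exact ⟨n, hn.le⟩
  refine ⟨c₁ + c₂ + c₃, fun {Ω} _ p X S h P P₀ P₁ y f F hh hcap hbd hno hlab hF => ?_⟩
  obtain ⟨ab, E, hEF, hpE, hab, hup, hlow⟩ := prof_pop p hh P y f F hbd
  have hE0 : 0 < Pb p E := by
    by_contra hcon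
    push Not at hcon
    have h1 : ((P : ℝ) + 1) ^ (k * K + 1) * Pb p E ≤ 0 :=
      mul_nonpos_of_nonneg_of_nonpos (by positivity) hcon
    linarith
  obtain ⟨ω₀, hω₀, hpω₀⟩ : ∃ ω, E ω ∧ 0 < p ω := by
    by_contra hcon
    push Not at hcon
    have : Pb p E ≤ 0 := by
      unfold Pb
      refine Finset.sum_nonpos fun ω _ => ?_
      split_ifs with h
      · exact hcon ω h
      · exact le_rfl
    linarith
  have hg0 : Pool.R1P.gp X ab (k * K) 0 ≤ P₀ + h + c₁ := by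
    obtain ⟨x, hx, hx2⟩ := hno ω₀ (hEF ω₀ hω₀) hpω₀
    refine hc₁ X h P₀ 0 ab (y ω₀) (f ω₀) (hup ω₀ hω₀ hpω₀) x (fun l => ?_) hx2
    rw [Nat.zero_mul, pow_zero, div_one]
    exact hx l
  have hgi : ∀ i ≤ S, Pool.R1P.gp X ab (k * K) i < h * P := by
    intro i hi
    obtain ⟨j, hj, hj2⟩ := Pool.R1P.gp_ex X ab (k * K) 0
    rw [Nat.zero_mul, Nat.mul_zero, Nat.zero_add] at hj2
    have h1 := Pool.R1P.gp_le (X := X) (ab := ab) i hj
    have h2 : j * (i * X) ≤ k * K * (S * X) := Nat.mul_le_mul hj (Nat.mul_le_mul_right X hi)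
    omega
  refine ⟨ab, E, hEF, hE0, hpE, hup, ?_, by omega, ?_, ?_⟩
  · intro ω hω hpω i hi j hj hgp
    exact hlow ω hω hpω j hj (by have := hgi i hi; omega)
  · have h1 := hc₂ X h P₁ S (h * P) ab (y ω₀) (crn X S (cel X y S ω₀)) (f ω₀)
      (fun j hj hlt => hlow ω₀ hω₀ hpω₀ j hj hlt) (fun l => near_crn X y S ω₀ l)
      (fun x hx => hlab ω₀ (hEF ω₀ hω₀) hpω₀ x hx) (hgi S le_rfl)
    omega
  · intro s₁ u r hX hs₁ hu hdbl hy s hs
    refine slope_le hX ?_ s hs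
    by_contra hcon
    push Not at hcon
    obtain ⟨g1, hg1⟩ : ∃ g1, g1 = Pool.R1P.gp X ab (k * K) s₁ := ⟨_, rfl⟩
    have h1 : ∀ x, InC X y s₁ ω₀ x → |ev (f ω₀) x| ≤ 1 / 2 ^ (g1 - h - c₃ - u + u) := by
      intro x hx
      refine (sup_le_gp (hup ω₀ hω₀ hpω₀) s₁ fun l => hx.near l).trans ?_
      rw [← hg1] at hcon ⊢
      have e1 : g1 = g1 - h - c₃ - u + u + (h + c₃) := by omega
      obtain ⟨n, hn⟩ : ∃ n, n = g1 - h - c₃ - u + u := ⟨_, rfl⟩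
      rw [← hn] at e1 ⊢
      rw [e1]
      refine (mul_le_mul_of_nonneg_right hc₃ (by positivity)).trans (le_of_eq ?_)
      rw [pow_add, pow_add]
      field_simp
    have h2 := hdbl ω₀ (hEF ω₀ hω₀) hpω₀ _ h1
    have h3 := hc₂ X h (g1 - h - c₃ - u) 0 (h * P) ab (y ω₀) (fun _ => 0) (f ω₀)
      (fun j hj hlt => hlow ω₀ hω₀ hpω₀ j hj hlt)
      (fun l => by
        rw [sub_zero, Nat.zero_mul, pow_zero, div_one, abs_of_nonneg (hy ω₀ l).1]
        exact (hy ω₀ l).2)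
      (fun x hx => h2 x fun l => by
        have := hx l
        rw [Nat.zero_mul, pow_zero, div_one, zero_add] at this
        exact this)
      (hgi 0 (Nat.zero_le _))
    omega

theorem gp_mono (X : ℕ) (ab : ℕ → ℕ) (D i : ℕ) :
    Pool.R1P.gp X ab D i ≤ Pool.R1P.gp X ab D (i + 1) := by
  obtain ⟨j, hj, hg⟩ := Pool.R1P.gp_ex X ab D (i + 1)
  have h1 := Pool.R1P.gp_le (X := X) (ab := ab) i hj
  have h2 : j * (i * X) ≤ j * ((i + 1) * X) :=
    Nat.mul_le_mul_left _ (Nat.mul_le_mul_right _ (Nat.le_succ i))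
  omega

theorem gp_conc (X : ℕ) (ab : ℕ → ℕ) (D i : ℕ) :
    Pool.R1P.gp X ab D i + Pool.R1P.gp X ab D (i + 2) ≤ 2 * Pool.R1P.gp X ab D (i + 1) := by
  obtain ⟨j, hj, hg⟩ := Pool.R1P.gp_ex X ab D (i + 1)
  have h1 := Pool.R1P.gp_le (X := X) (ab := ab) i hj
  have h2 := Pool.R1P.gp_le (X := X) (ab := ab) (i + 2) hj
  have e1 : j * (i * X) + j * ((i + 2) * X) = 2 * (j * ((i + 1) * X)) := by ring
  omega

/-- **The popular profile in the form of suprema.** `g i` is `- log2` of the supremum of `|f|` on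
the box of depth `i`, for all `i ≤ S`, up to `h + c`, for all samples of `E`. -/
theorem prof_box (k K : ℕ) : ∃ c : ℕ, ∀ {Ω : Type} [Fintype Ω] (p : Ω → ℝ) (X S h P P₀ : ℕ)
    (y : Ω → Fin k → ℝ) (f : Ω → (Fin k → Fin (K + 1)) → ℝ) (F : Ω → Prop), 1 ≤ h →
    k * K * (S * X) + P₀ + h + c < h * P →
    (∀ ω, F ω → 0 < p ω → ∀ al, |shf (y ω) (f ω) al| ≤ 2 ^ h) →
    (∀ ω, F ω → 0 < p ω → ∃ x : Fin k → ℝ, (∀ l, |x l - y ω l| ≤ 1) ∧ 1 / 2 ^ P₀ ≤ |ev (f ω) x|) →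
    0 < Pb p F →
    ∃ (g : ℕ → ℕ) (E : Ω → Prop), (∀ ω, E ω → F ω) ∧ 0 < Pb p E ∧
      Pb p F ≤ ((P : ℝ) + 1) ^ (k * K + 1) * Pb p E ∧
      (∀ ω, E ω → 0 < p ω → ∀ i ≤ S, (∀ x : Fin k → ℝ, (∀ l, |x l - y ω l| ≤ 1 / 2 ^ (i * X)) →
        |ev (f ω) x| ≤ 2 ^ (h + c) / 2 ^ g i) ∧
        ∃ x : Fin k → ℝ, InC X y i ω x ∧ 1 / 2 ^ (g i + h + c) ≤ |ev (f ω) x|) ∧
      g 0 ≤ P₀ + h + c ∧ (∀ i, g i ≤ g (i + 1)) ∧ (∀ i, g i + g (i + 2) ≤ 2 * g (i + 1)) ∧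
      (∀ i P₁, i ≤ S → (∀ ω, F ω → 0 < p ω → ∀ x, InC X y i ω x → |ev (f ω) x| ≤ 1 / 2 ^ P₁) →
        P₁ ≤ g i + h + c) ∧
      ∀ s₁ u r, 1 ≤ X → s₁ ≤ S → u + 2 * h + 2 * c < (r + 1) * (s₁ * X) →
        (∀ ω, F ω → 0 < p ω → ∀ n : ℕ, (∀ x, InC X y s₁ ω x → |ev (f ω) x| ≤ 1 / 2 ^ (n + u)) →
          ∀ x : Fin k → ℝ, (∀ l, 0 ≤ x l ∧ x l ≤ 1) → |ev (f ω) x| ≤ 1 / 2 ^ n) →
        (∀ ω l, 0 ≤ y ω l ∧ y ω l ≤ 1) → ∀ s, s₁ ≤ s → g (s + 1) ≤ g s + r * X := by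
  classical
  obtain ⟨c₁, hc₁⟩ := gp_le_of_big k K
  obtain ⟨c₂, hc₂⟩ := gp_ge_of_sup k K
  obtain ⟨c₃, hc₃⟩ : ∃ n : ℕ, ((K : ℝ) + 1) ^ k ≤ 2 ^ n := by
    obtain ⟨n, hn⟩ := pow_unbounded_of_one_lt (((K : ℝ) + 1) ^ k) (by norm_num : (1 : ℝ) < 2)
    exact ⟨n, hn.le⟩
  refine ⟨c₁ + c₂ + c₃ + 1, fun {Ω} _ p X S h P P₀ y f F hh hcap hbd hno hF => ?_⟩
  obtain ⟨ab, E, hEF, hpE, hab, hup, hlow⟩ := prof_pop p hh P y f F hbd
  have hE0 : 0 < Pb p E := by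
    by_contra hcon
    push Not at hcon
    have h1 : ((P : ℝ) + 1) ^ (k * K + 1) * Pb p E ≤ 0 :=
      mul_nonpos_of_nonneg_of_nonpos (by positivity) hcon
    linarith
  obtain ⟨ω₀, hω₀, hpω₀⟩ : ∃ ω, E ω ∧ 0 < p ω := by
    by_contra hcon
    push Not at hcon
    have : Pb p E ≤ 0 := by
      unfold Pb
      refine Finset.sum_nonpos fun ω _ => ?_
      split_ifs with h
      · exact hcon ω h
      · exact le_rfl
    linarith
  have hg0 : Pool.R1P.gp X ab (k * K) 0 ≤ P₀ + h + c₁ := by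
    obtain ⟨x, hx, hx2⟩ := hno ω₀ (hEF ω₀ hω₀) hpω₀
    refine hc₁ X h P₀ 0 ab (y ω₀) (f ω₀) (hup ω₀ hω₀ hpω₀) x (fun l => ?_) hx2
    rw [Nat.zero_mul, pow_zero, div_one]
    exact hx l
  have hgi : ∀ i ≤ S, Pool.R1P.gp X ab (k * K) i < h * P := by
    intro i hi
    obtain ⟨j, hj, hj2⟩ := Pool.R1P.gp_ex X ab (k * K) 0
    rw [Nat.zero_mul, Nat.mul_zero, Nat.zero_add] at hj2
    have h1 := Pool.R1P.gp_le (X := X) (ab := ab) i hj
    have h2 : j * (i * X) ≤ k * K * (S * X) := Nat.mul_le_mul hj (Nat.mul_le_mul_right X hi)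
    omega
  refine ⟨fun i => Pool.R1P.gp X ab (k * K) i, E, hEF, hE0, hpE, ?_,
    hg0.trans (by omega), fun i => gp_mono X ab _ i, fun i => gp_conc X ab _ i, ?_, ?_⟩
  · intro ω hω hpω i hi
    constructor
    · intro x hx
      refine (sup_le_gp (hup ω hω hpω) i hx).trans ?_
      refine (mul_le_mul_of_nonneg_right hc₃ (by positivity)).trans ?_
      rw [← mul_div_assoc]
      refine div_le_div_of_nonneg_right ?_ (by positivity)
      rw [← pow_add]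
      exact pow_le_pow_right₀ (by norm_num) (by omega)
    · by_contra hcon
      push Not at hcon
      have h1 := hc₂ X h (Pool.R1P.gp X ab (k * K) i + h + (c₁ + c₂ + c₃ + 1)) i (h * P) ab (y ω)
        (crn X i (cel X y i ω)) (f ω) (fun j hj hlt => hlow ω hω hpω j hj hlt)
        (fun l => near_crn X y i ω l) (fun x hx => (hcon x hx).le) (hgi i hi)
      omega
  · intro i P₁ hi hlab
    have h1 := hc₂ X h P₁ i (h * P) ab (y ω₀) (crn X i (cel X y i ω₀)) (f ω₀)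
      (fun j hj hlt => hlow ω₀ hω₀ hpω₀ j hj hlt) (fun l => near_crn X y i ω₀ l)
      (fun x hx => hlab ω₀ (hEF ω₀ hω₀) hpω₀ x hx) (hgi i hi)
    show P₁ ≤ Pool.R1P.gp X ab (k * K) i + h + (c₁ + c₂ + c₃ + 1)
    omega
  · intro s₁ u r hX hs₁ hu hdbl hy s hs
    refine (slope_le hX ?_ s hs).2
    by_contra hcon
    push Not at hcon
    obtain ⟨g1, hg1⟩ : ∃ g1, g1 = Pool.R1P.gp X ab (k * K) s₁ := ⟨_, rfl⟩
    have h1 : ∀ x, InC X y s₁ ω₀ x → |ev (f ω₀) x| ≤ 1 / 2 ^ (g1 - h - c₃ - u + u) := by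
      intro x hx
      refine (sup_le_gp (hup ω₀ hω₀ hpω₀) s₁ fun l => hx.near l).trans ?_
      rw [← hg1] at hcon ⊢
      have e1 : g1 = g1 - h - c₃ - u + u + (h + c₃) := by omega
      obtain ⟨n, hn⟩ : ∃ n, n = g1 - h - c₃ - u + u := ⟨_, rfl⟩
      rw [← hn] at e1 ⊢
      rw [e1]
      refine (mul_le_mul_of_nonneg_right hc₃ (by positivity)).trans (le_of_eq ?_)
      rw [pow_add, pow_add]
      field_simp
    have h2 := hdbl ω₀ (hEF ω₀ hω₀) hpω₀ _ h1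
    have h3 := hc₂ X h (g1 - h - c₃ - u) 0 (h * P) ab (y ω₀) (fun _ => 0) (f ω₀)
      (fun j hj hlt => hlow ω₀ hω₀ hpω₀ j hj hlt)
      (fun l => by
        rw [sub_zero, Nat.zero_mul, pow_zero, div_one, abs_of_nonneg (hy ω₀ l).1]
        exact (hy ω₀ l).2)
      (fun x hx => h2 x fun l => by
        have := hx l
        rw [Nat.zero_mul, pow_zero, div_one, zero_add] at this
        exact this)
      (hgi 0 (Nat.zero_le _))
    omega

end Pool.JMP
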