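import Pool.Agent.H32.Dense.EntX
import Pool.Agent.H19.BFL.Stmts

/-!
# Two cells of one leaf

`R` is the label of a leaf on a cell, `V` contains the label of the same leaf on another cell and
the position in this other cell. The two labels give a linear form of the other coordinates `v` of
the point in the other cell. If the covectors differ by `2 ^ (-e)`, then `v` loses `J - e` digits,
so `R` has at least `J - e` digits given `V`.
-/

set_option autoImplicit false

namespace Pool.JMP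

open Finset Real
open Pool.Agent.H49.Ent Pool.Agent.H32.Dense Pool.STK Pool.BFL

variable {Ω α β γ δ G : Type} [Fintype Ω] {p : Ω → ℝ}

/-- A set of vectors of digits in which the coordinate `i₀` is almost determined by the others. -/
theorem card_line {m : ℕ} (J : ℕ) (F : Finset (Fin (m + 1) → ℤ)) (i₀ : Fin (m + 1)) (M : ℕ)
    (h0 : ∀ a ∈ F, ∀ i, 0 ≤ a i ∧ a i < 2 ^ J)
    (h1 : ∀ a ∈ F, ∀ b ∈ F, (∀ i, i ≠ i₀ → a i = b i) → |a i₀ - b i₀| ≤ M) :
    F.card ≤ (2 * M + 1) * (2 ^ J) ^ m := by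
  classical
  obtain ⟨g, hg⟩ : ∃ g : (Fin (m + 1) → ℤ) → Fin m → ℤ, g = fun a i => a (i₀.succAbove i) :=
    ⟨_, rfl⟩
  have hfib : ∀ b ∈ F.image g, (F.filter fun a => g a = b).card ≤ 2 * M + 1 := by
    intro b hb
    obtain ⟨a₀, ha₀, hb₀⟩ := Finset.mem_image.1 hb
    have hsub : (F.filter fun a => g a = b).card ≤ (Finset.Icc (a₀ i₀ - M) (a₀ i₀ + M)).card := by
      refine Finset.card_le_card_of_injOn (fun a => a i₀) ?_ ?_
      · intro a ha
        obtain ⟨ha1, ha2⟩ := Finset.mem_filter.1 ha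
        have h2 : ∀ i, i ≠ i₀ → a i = a₀ i := by
          intro i hi
          obtain ⟨j, hj⟩ := Fin.exists_succAbove_eq hi
          have h3 : g a j = g a₀ j := by rw [ha2, hb₀]
          rw [hg] at h3
          rw [← hj]
          exact h3
        have h3 := h1 a ha1 a₀ ha₀ h2
        rw [abs_le] at h3
        simp only [Finset.coe_Icc, Set.mem_Icc]
        constructor <;> linarith [h3.1, h3.2]
      · intro a ha b' hb' hab
        rw [Finset.coe_filter] at ha hb'
        have h3 : g a = g b' := ha.2.trans hb'.2.symm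
        funext i
        by_cases hi : i = i₀
        · rw [hi]
          exact hab
        · obtain ⟨j, hj⟩ := Fin.exists_succAbove_eq hi
          have h4 := congrFun h3 j
          rw [hg] at h4
          rw [← hj]
          exact h4
    refine hsub.trans ?_
    rw [Int.card_Icc]
    have : a₀ i₀ + M + 1 - (a₀ i₀ - M) = ((2 * M + 1 : ℕ) : ℤ) := by push_cast; ring
    rw [this, Int.toNat_natCast]
  have himg : (F.image g).card ≤ (2 ^ J) ^ m := by
    have h2 : F.image g ⊆ Fintype.piFinset fun _ : Fin m => Finset.Ico (0 : ℤ) (2 ^ J) := by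
      intro b hb
      obtain ⟨a, ha, hb₀⟩ := Finset.mem_image.1 hb
      rw [Fintype.mem_piFinset]
      intro i
      rw [Finset.mem_Ico, ← hb₀, hg]
      exact h0 a ha _
    refine (Finset.card_le_card h2).trans ?_
    rw [Fintype.card_piFinset, Finset.prod_const, Finset.card_univ, Fintype.card_fin, Int.card_Ico,
      sub_zero]
    have : ((2 : ℤ) ^ J).toNat = 2 ^ J := by
      have h3 : ((2 : ℤ) ^ J) = ((2 ^ J : ℕ) : ℤ) := by push_cast; rfl
      rw [h3, Int.toNat_natCast]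
    rw [this]
  have h2 := Finset.card_le_mul_card_image (s := F) (f := g) (2 * M + 1) hfib
  exact h2.trans (Nat.mul_le_mul_left _ himg)

/-- **The label of a cell and the label of another cell of the same leaf.** `v` has all its digits
given `V`, and `(R, V)` gives a linear form `sg` of size at least `2 ^ (-e)` of `v`, up to
`2 ^ (d - J)`. -/
theorem two_cell {m J d : ℕ} (hp : IsLaw p) (R : Ω → α) (V : Ω → β) (v sg : Ω → Fin (m + 1) → ℝ)
    (T : Ω → ℝ) (e : Ω → ℕ) {θ : ℝ} (hv : ∀ ω, 0 < p ω → ∀ i, 0 ≤ v ω i ∧ v ω i < 1)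
    (dS : Det p (fun ω => (R ω, V ω)) sg) (dT : Det p (fun ω => (R ω, V ω)) T)
    (h1 : ∀ ω, 0 < p ω → ∀ i, |sg ω i| ≤ 1)
    (he : ∀ ω, 0 < p ω → ∃ i, 1 / 2 ^ e ω ≤ |sg ω i|)
    (hT : ∀ ω, 0 < p ω → |∑ i, sg ω i * v ω i - T ω| ≤ 2 ^ d / 2 ^ J)
    (hfull : ((m : ℝ) + 1) * (J * Real.log 2) - θ ≤ CH p (Fl v J) V) :
    J * Real.log 2 - θ - (Ex p fun ω => (e ω : ℝ)) * Real.log 2 - d * Real.log 2 -
      Real.log (2 * m + 9) ≤ CH p R V := by
  classical
  have h0 := hp.nonneg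
  obtain ⟨X, hX⟩ : ∃ X : Ω → Fin (m + 1) → ℤ, X = Fl v J := ⟨_, rfl⟩
  rw [← hX] at hfull
  have hXv : ∀ ω i, X ω i = ⌊(2 : ℝ) ^ J * v ω i⌋ := fun ω i => by rw [hX]; rfl
  -- the fibre
  obtain ⟨Fb, hFb⟩ : ∃ Fb : α × β → Finset (Fin (m + 1) → ℤ), Fb = fun c =>
    (Finset.univ.filter fun ω => 0 < p ω ∧ (R ω, V ω) = c).image X := ⟨_, rfl⟩
  have hmem : ∀ ω, 0 < p ω → X ω ∈ Fb (R ω, V ω) := by
    intro ω hω
    rw [hFb]
    exact Finset.mem_image_of_mem _ (Finset.mem_filter.2 ⟨Finset.mem_univ _, hω, rfl⟩)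
  have hcard : ∀ ω, 0 < p ω → Real.log (Fb (R ω, V ω)).card ≤
      m * (J * Real.log 2) + (e ω : ℝ) * Real.log 2 + d * Real.log 2 + Real.log (2 * m + 9) := by
    intro ω hω
    obtain ⟨i₀, hi₀⟩ := he ω hω
    have hc : (Fb (R ω, V ω)).card ≤ (2 * (2 ^ e ω * (2 * 2 ^ d + m) + 1) + 1) * (2 ^ J) ^ m := by
      refine card_line J _ i₀ _ ?_ ?_
      · intro a ha i
        rw [hFb] at ha
        obtain ⟨ω₁, hω₁, rfl⟩ := Finset.mem_image.1 ha
        obtain ⟨-, hp₁, -⟩ := Finset.mem_filter.1 hω₁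
        obtain ⟨g1, g2⟩ := hv ω₁ hp₁ i
        have hJ : (0 : ℝ) < 2 ^ J := by positivity
        rw [hXv]
        constructor
        · exact Int.floor_nonneg.2 (mul_nonneg hJ.le g1)
        · rw [Int.floor_lt]
          push_cast
          nlinarith
      · intro a ha b hb hab
        rw [hFb] at ha hb
        obtain ⟨ω₁, hω₁, rfl⟩ := Finset.mem_image.1 ha
        obtain ⟨-, hp₁, hl₁⟩ := Finset.mem_filter.1 hω₁
        obtain ⟨ω₂, hω₂, rfl⟩ := Finset.mem_image.1 hb
        obtain ⟨-, hp₂, hl₂⟩ := Finset.mem_filter.1 hω₂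
        have hs₁ := dS ω₁ ω hp₁ hω hl₁
        have hs₂ := dS ω₂ ω hp₂ hω hl₂
        have ht₁ := dT ω₁ ω hp₁ hω hl₁
        have ht₂ := dT ω₂ ω hp₂ hω hl₂
        have hJ : (0 : ℝ) < 2 ^ J := by positivity
        have hT₁ := hT ω₁ hp₁
        have hT₂ := hT ω₂ hp₂
        rw [hs₁, ht₁] at hT₁
        rw [hs₂, ht₂] at hT₂
        -- the other coordinates
        have hoth : ∀ i, i ≠ i₀ → |(2 : ℝ) ^ J * v ω₁ i - 2 ^ J * v ω₂ i| ≤ 1 := by
          intro i hi
          have e1 := hab i hi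
          rw [hXv, hXv] at e1
          have a1 := Int.floor_le ((2 : ℝ) ^ J * v ω₁ i)
          have a2 := Int.lt_floor_add_one ((2 : ℝ) ^ J * v ω₁ i)
          have a3 := Int.floor_le ((2 : ℝ) ^ J * v ω₂ i)
          have a4 := Int.lt_floor_add_one ((2 : ℝ) ^ J * v ω₂ i)
          rw [e1] at a1 a2
          rw [abs_le]
          constructor <;> linarith
        have hsum : |∑ i, sg ω i * ((2 : ℝ) ^ J * v ω₁ i - 2 ^ J * v ω₂ i)| ≤ 2 * 2 ^ d := by
          have e1 : ∑ i, sg ω i * ((2 : ℝ) ^ J * v ω₁ i - 2 ^ J * v ω₂ i) =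
              2 ^ J * ((∑ i, sg ω i * v ω₁ i - T ω) - (∑ i, sg ω i * v ω₂ i - T ω)) := by
            have e2 : (∑ i, sg ω i * v ω₁ i - T ω) - (∑ i, sg ω i * v ω₂ i - T ω) =
                ∑ i, (sg ω i * v ω₁ i - sg ω i * v ω₂ i) := by
              rw [Finset.sum_sub_distrib]
              ring
            rw [e2, Finset.mul_sum]
            exact Finset.sum_congr rfl fun i _ => by ring
          rw [e1, abs_mul, abs_of_pos hJ]
          have e3 : |(∑ i, sg ω i * v ω₁ i - T ω) - (∑ i, sg ω i * v ω₂ i - T ω)| ≤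
              2 ^ d / 2 ^ J + 2 ^ d / 2 ^ J := (abs_sub _ _).trans (add_le_add hT₁ hT₂)
          refine (mul_le_mul_of_nonneg_left e3 hJ.le).trans (le_of_eq ?_)
          field_simp
          ring
        have hrest : |∑ i ∈ Finset.univ.erase i₀, sg ω i *
            ((2 : ℝ) ^ J * v ω₁ i - 2 ^ J * v ω₂ i)| ≤ m := by
          refine (Finset.abs_sum_le_sum_abs _ _).trans ?_
          refine (Finset.sum_le_sum (g := fun _ => (1 : ℝ)) fun i hi => ?_).trans (le_of_eq ?_)
          · rw [abs_mul]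
            have := mul_le_mul (h1 ω hω i) (hoth i (Finset.ne_of_mem_erase hi)) (abs_nonneg _)
              zero_le_one
            simpa using this
          · rw [Finset.sum_const, Finset.card_erase_of_mem (Finset.mem_univ _), Finset.card_univ,
              Fintype.card_fin, nsmul_eq_mul, mul_one, Nat.add_sub_cancel]
        have hmain : |sg ω i₀| * |(2 : ℝ) ^ J * v ω₁ i₀ - 2 ^ J * v ω₂ i₀| ≤ 2 * 2 ^ d + m := by
          have e1 := Finset.add_sum_erase Finset.univ (fun i => sg ω i *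
            ((2 : ℝ) ^ J * v ω₁ i - 2 ^ J * v ω₂ i)) (Finset.mem_univ i₀)
          rw [← abs_mul]
          have e2 : sg ω i₀ * ((2 : ℝ) ^ J * v ω₁ i₀ - 2 ^ J * v ω₂ i₀) =
              ∑ i, sg ω i * ((2 : ℝ) ^ J * v ω₁ i - 2 ^ J * v ω₂ i) -
                ∑ i ∈ Finset.univ.erase i₀, sg ω i *
                  ((2 : ℝ) ^ J * v ω₁ i - 2 ^ J * v ω₂ i) := by linarith
          rw [e2]
          exact (abs_sub _ _).trans (add_le_add hsum hrest)
        have hdiff : |(2 : ℝ) ^ J * v ω₁ i₀ - 2 ^ J * v ω₂ i₀| ≤ 2 ^ e ω * (2 * 2 ^ d + m) := by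
          have e1 : (1 : ℝ) / 2 ^ e ω * |(2 : ℝ) ^ J * v ω₁ i₀ - 2 ^ J * v ω₂ i₀| ≤
              2 * 2 ^ d + m := (mul_le_mul_of_nonneg_right hi₀ (abs_nonneg _)).trans hmain
          have e2 : (0 : ℝ) < 2 ^ e ω := by positivity
          rw [div_mul_eq_mul_div, one_mul, div_le_iff₀ e2] at e1
          linarith
        have hfl : |((X ω₁ i₀ - X ω₂ i₀ : ℤ) : ℝ)| ≤
            ((2 ^ e ω * (2 * 2 ^ d + m) + 1 : ℕ) : ℝ) := by
          rw [hXv, hXv]
          have a1 := Int.floor_le ((2 : ℝ) ^ J * v ω₁ i₀)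
          have a2 := Int.lt_floor_add_one ((2 : ℝ) ^ J * v ω₁ i₀)
          have a3 := Int.floor_le ((2 : ℝ) ^ J * v ω₂ i₀)
          have a4 := Int.lt_floor_add_one ((2 : ℝ) ^ J * v ω₂ i₀)
          rw [abs_le] at hdiff ⊢
          push_cast
          constructor <;> linarith [hdiff.1, hdiff.2]
        have : (|X ω₁ i₀ - X ω₂ i₀| : ℤ) ≤ ((2 ^ e ω * (2 * 2 ^ d + m) + 1 : ℕ) : ℤ) := by
          have h9 : ((|X ω₁ i₀ - X ω₂ i₀| : ℤ) : ℝ) ≤
              (((2 ^ e ω * (2 * 2 ^ d + m) + 1 : ℕ) : ℤ) : ℝ) := by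
            rw [Int.cast_abs]
            exact_mod_cast hfl
          exact_mod_cast h9
        exact this
    have hpos : 0 < (Fb (R ω, V ω)).card := Finset.card_pos.2 ⟨_, hmem ω hω⟩
    have hle : ((Fb (R ω, V ω)).card : ℝ) ≤
        ((2 : ℝ) ^ J) ^ m * 2 ^ e ω * 2 ^ d * (2 * m + 9) := by
      have h2 : ((Fb (R ω, V ω)).card : ℝ) ≤
          (2 * (2 ^ e ω * (2 * 2 ^ d + m) + 1) + 1) * ((2 : ℝ) ^ J) ^ m := by exact_mod_cast hc
      have ha : (1 : ℝ) ≤ 2 ^ e ω := one_le_pow₀ (by norm_num)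
      have hb : (1 : ℝ) ≤ 2 ^ d := one_le_pow₀ (by norm_num)
      have hm : (0 : ℝ) ≤ m := Nat.cast_nonneg m
      have hab : (1 : ℝ) ≤ 2 ^ e ω * 2 ^ d := one_le_mul_of_one_le_of_one_le ha hb
      have h3 : 2 * ((2 : ℝ) ^ e ω * (2 * 2 ^ d + m) + 1) + 1 ≤
          2 ^ e ω * 2 ^ d * (2 * m + 9) := by
        have h4 : (2 : ℝ) ^ e ω * m ≤ 2 ^ e ω * 2 ^ d * m := by
          have := mul_le_mul_of_nonneg_left hb (mul_nonneg (zero_le_one.trans ha) hm)
          nlinarith
        nlinarith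
      refine h2.trans ((mul_le_mul_of_nonneg_right h3 (by positivity)).trans (le_of_eq ?_))
      ring
    refine (Real.log_le_log (by exact_mod_cast hpos) hle).trans (le_of_eq ?_)
    rw [Real.log_mul (by positivity) (by positivity), Real.log_mul (by positivity) (by positivity),
      Real.log_mul (by positivity) (by positivity), Real.log_pow, Real.log_pow, Real.log_pow,
      Real.log_pow]
  have h2 := CH_le_card h0 hp.sum_one X (fun ω => (R ω, V ω)) Fb hmem
  have h3 : CH p X (fun ω => (R ω, V ω)) ≤ m * (J * Real.log 2) +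
      (Ex p fun ω => (e ω : ℝ)) * Real.log 2 + d * Real.log 2 + Real.log (2 * m + 9) := by
    refine h2.trans ((Ex_mono h0 hcard).trans (le_of_eq ?_))
    have e1 : (fun ω => (m : ℝ) * (J * Real.log 2) + (e ω : ℝ) * Real.log 2 + d * Real.log 2 +
        Real.log (2 * m + 9)) = fun ω => (m * (J * Real.log 2) + d * Real.log 2 +
        Real.log (2 * m + 9)) + Real.log 2 * (e ω : ℝ) := by
      funext ω
      ring
    rw [e1, Ex_add, Ex_smul, Ex_const hp.sum_one]
    ring
  have h4 := CH_le_add h0 X R V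
  nlinarith [h4, h3, hfull]

/-- **The upper bound of the entropy of the label of a cell**: `z` is the position, `x` the point
in the cell. -/
theorem own_cell (hp : IsLaw p) (R : Ω → α) (W : Ω → β) (z : Ω → γ) (x : Ω → δ) {θz hid : ℝ}
    (hz : CH p z W - θz ≤ CH p z (fun ω => (R ω, W ω)))
    (hh : CH p R (fun ω => (x ω, (z ω, W ω))) ≤ hid) :
    CH p R W ≤ CH p x (fun ω => (z ω, W ω)) - CH p x (fun ω => (R ω, (z ω, W ω))) + hid + θz := by
  have h0 := hp.nonneg
  have a1 := CH_chain h0 z R W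
  have a2 := CH_chain h0 R z W
  have a3 := CH_chain h0 x R (fun ω => (z ω, W ω))
  have a4 := CH_chain h0 R x (fun ω => (z ω, W ω))
  have a5 : CH p (fun ω => (z ω, R ω)) W = CH p (fun ω => (R ω, z ω)) W := by
    refine CH_congr h0 ?_ ?_ (fun ω ω' _ _ h => h) (fun ω ω' _ _ h => h) <;>
    · intro ω ω' _ _ h
      simp only [Prod.mk.injEq] at h ⊢
      tauto
  have a6 : CH p (fun ω => (x ω, R ω)) (fun ω => (z ω, W ω)) =
      CH p (fun ω => (R ω, x ω)) (fun ω => (z ω, W ω)) := by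
    refine CH_congr h0 ?_ ?_ (fun ω ω' _ _ h => h) (fun ω ω' _ _ h => h) <;>
    · intro ω ω' _ _ h
      simp only [Prod.mk.injEq] at h ⊢
      tauto
  linarith

/-- **Two cells of one leaf have almost the same covector.** `W` is the world, `z`, `x` the
position and the point in the cell of `R`, `V` contains `W`, the other cell, its label and the
position in it, `v` the other coordinates of the point in the other cell. The number `N` has not
all its digits (`hnf`). -/
theorem two_main {m J d : ℕ} (hp : IsLaw p) (R : Ω → α) (W : Ω → γ) (V : Ω → β) (z : Ω → δ)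
    (x : Ω → G) (v sg : Ω → Fin (m + 1) → ℝ) (T : Ω → ℝ) (e : Ω → ℕ) {θ θ₁ θz hid η : ℝ}
    (dV : Det p V W) (hv : ∀ ω, 0 < p ω → ∀ i, 0 ≤ v ω i ∧ v ω i < 1)
    (dS : Det p (fun ω => (R ω, V ω)) sg) (dT : Det p (fun ω => (R ω, V ω)) T)
    (h1 : ∀ ω, 0 < p ω → ∀ i, |sg ω i| ≤ 1)
    (he : ∀ ω, 0 < p ω → ∃ i, 1 / 2 ^ e ω ≤ |sg ω i|)
    (hT : ∀ ω, 0 < p ω → |∑ i, sg ω i * v ω i - T ω| ≤ 2 ^ d / 2 ^ J)
    (hfull : ((m : ℝ) + 1) * (J * Real.log 2) - θ ≤ CH p (Fl v J) V)
    (hz : CH p z W - θz ≤ CH p z (fun ω => (R ω, W ω)))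
    (hh : CH p R (fun ω => (x ω, (z ω, W ω))) ≤ hid)
    (hown : ((m : ℝ) + 1) * (J * Real.log 2) - θ₁ ≤ CH p x (fun ω => (R ω, (z ω, W ω))))
    (hnf : CH p x (fun ω => (z ω, W ω)) ≤ ((m : ℝ) + 2 - η) * (J * Real.log 2)) :
    η * (J * Real.log 2) ≤ (Ex p fun ω => (e ω : ℝ)) * Real.log 2 + d * Real.log 2 +
      Real.log (2 * m + 9) + θ + θ₁ + θz + hid := by
  have a1 := two_cell hp R V v sg T e hv dS dT h1 he hT hfull
  have a2 := own_cell hp R W z x hz hh
  have a3 : CH p R V ≤ CH p R W := CH_mono_cond hp.nonneg dV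
  nlinarith

/-- From the mean to the probability. -/
theorem ex_le_pb (hp : IsLaw p) (e : Ω → ℕ) {J a : ℕ} (he : ∀ ω, 0 < p ω → e ω ≤ J) :
    (Ex p fun ω => (e ω : ℝ)) ≤ a + J * Pb p fun ω => a ≤ e ω := by
  classical
  have h1 : ∀ ω, 0 < p ω → (e ω : ℝ) ≤ a + J * (if a ≤ e ω then 1 else 0) := by
    intro ω hω
    have h2 : (e ω : ℝ) ≤ J := by exact_mod_cast he ω hω
    by_cases h3 : a ≤ e ω
    · rw [if_pos h3, mul_one]
      have : (0 : ℝ) ≤ a := Nat.cast_nonneg a
      linarith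
    · rw [if_neg h3, mul_zero, add_zero]
      push Not at h3
      exact_mod_cast h3.le
  refine (Ex_mono hp.nonneg h1).trans (le_of_eq ?_)
  rw [Ex_add, Ex_const hp.sum_one, Ex_smul]
  congr 2
  unfold Ex Pb
  refine Finset.sum_congr rfl fun ω _ => ?_
  by_cases h : a ≤ e ω
  · simp [h]
  · simp [h]

/-- A popular value among the independent copies. -/
theorem pop_copy (hp : IsLaw p) (g : Ω → G) (A : Ω → Ω → Prop) : ∃ s : G → Ω,
    (∀ ω, 0 < p ω → 0 < p (s (g ω)) ∧ g (s (g ω)) = g ω) ∧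
    P2 p g A ≤ Pb p fun ω => A ω (s (g ω)) := by
  classical
  have h0 := hp.nonneg
  obtain ⟨f, hf⟩ : ∃ f : Ω → ℝ, f = fun ω' => ∑ ω, if g ω = g ω' ∧ A ω ω' then p ω else 0 :=
    ⟨_, rfl⟩
  have hne : Nonempty Ω := by
    by_contra hcon
    rw [not_nonempty_iff] at hcon
    have := hp.sum_one
    rw [Finset.sum_of_isEmpty] at this
    exact zero_ne_one this
  -- the best copy of one value
  have hbest : ∀ c : G, ∃ ω', ((∃ ω, 0 < p ω ∧ g ω = c) → 0 < p ω' ∧ g ω' = c ∧
      ∀ ω'', 0 < p ω'' → g ω'' = c → f ω'' ≤ f ω') := by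
    intro c
    by_cases h : ∃ ω, 0 < p ω ∧ g ω = c
    · obtain ⟨ω₁, h1, h2⟩ := h
      obtain ⟨ω', hω', hmax⟩ := Finset.exists_max_image
        (Finset.univ.filter fun ω => 0 < p ω ∧ g ω = c) f
        ⟨ω₁, Finset.mem_filter.2 ⟨Finset.mem_univ _, h1, h2⟩⟩
      obtain ⟨-, h3, h4⟩ := Finset.mem_filter.1 hω'
      exact ⟨ω', fun _ => ⟨h3, h4, fun ω'' h5 h6 =>
        hmax ω'' (Finset.mem_filter.2 ⟨Finset.mem_univ _, h5, h6⟩)⟩⟩
    · exact ⟨Classical.arbitrary Ω, fun h' => absurd h' h⟩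
  choose s hs using hbest
  refine ⟨s, fun ω hω => ⟨(hs (g ω) ⟨ω, hω, rfl⟩).1, (hs (g ω) ⟨ω, hω, rfl⟩).2.1⟩, ?_⟩
  have e1 : P2 p g A = ∑ ω', p ω' / law p g (g ω') * f ω' := by
    unfold P2
    rw [Finset.sum_comm]
    refine Finset.sum_congr rfl fun ω' _ => ?_
    rw [hf, Finset.mul_sum]
    refine Finset.sum_congr rfl fun ω _ => ?_
    by_cases h : g ω = g ω' ∧ A ω ω'
    · rw [if_pos h, if_pos h, h.1]
      ring
    · rw [if_neg h, if_neg h, mul_zero]
  have e2 : ∑ ω', p ω' / law p g (g ω') * f ω' ≤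
      ∑ ω', p ω' / law p g (g ω') * f (s (g ω')) := by
    refine Finset.sum_le_sum fun ω' _ => ?_
    rcases (h0 ω').eq_or_lt with h | h
    · rw [← h, zero_div, zero_mul, zero_mul]
    · exact mul_le_mul_of_nonneg_left ((hs (g ω') ⟨ω', h, rfl⟩).2.2 ω' h rfl)
        (div_nonneg (h0 ω') (law_nonneg h0 g _))
  have e3 : ∑ ω', p ω' / law p g (g ω') * f (s (g ω')) =
      Pb p fun ω => A ω (s (g ω)) := by
    have e4 : ∀ ω', p ω' / law p g (g ω') * f (s (g ω')) =
        ∑ ω, if g ω = g ω' then p ω' / law p g (g ω) * (if A ω (s (g ω)) then p ω else 0)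
          else 0 := by
      intro ω'
      rcases (h0 ω').eq_or_lt with h | h
      · rw [← h, zero_div, zero_mul]
        symm
        refine Finset.sum_eq_zero fun ω _ => ?_
        split_ifs <;> simp
      · have h5 := (hs (g ω') ⟨ω', h, rfl⟩).2.1
        rw [hf]
        simp only
        rw [h5, Finset.mul_sum]
        refine Finset.sum_congr rfl fun ω _ => ?_
        by_cases h6 : g ω = g ω'
        · rw [if_pos h6, h6]
          by_cases h7 : A ω (s (g ω'))
          · rw [if_pos ⟨rfl, h7⟩, if_pos h7]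
          · rw [if_neg (fun h8 => h7 h8.2), if_neg h7]
        · rw [if_neg h6, if_neg (fun h8 => h6 h8.1), mul_zero]
    rw [Finset.sum_congr rfl fun ω' _ => e4 ω', Finset.sum_comm]
    unfold Pb
    refine Finset.sum_congr rfl fun ω _ => ?_
    rcases (h0 ω).eq_or_lt with h | h
    · rw [← h]
      simp
    · have hl : 0 < law p g (g ω) := law_pos h0 g h
      have e5 : ∀ ω', (if g ω = g ω' then p ω' / law p g (g ω) *
          (if A ω (s (g ω)) then p ω else 0) else 0) =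
          (if g ω' = g ω then p ω' else 0) / law p g (g ω) *
            (if A ω (s (g ω)) then p ω else 0) := by
        intro ω'
        by_cases h6 : g ω' = g ω
        · rw [if_pos h6.symm, if_pos h6]
        · rw [if_neg (fun h8 => h6 h8.symm), if_neg h6, zero_div, zero_mul]
      rw [Finset.sum_congr rfl fun ω' _ => e5 ω', ← Finset.sum_mul, ← Finset.sum_div]
      have e6 : (∑ ω', if g ω' = g ω then p ω' else 0) = law p g (g ω) := by
        unfold law
        exact Finset.sum_congr rfl fun _ _ => by congr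
      rw [e6, div_self hl.ne', one_mul]
  rw [e1]
  exact e2.trans (le_of_eq e3)

end Pool.JMP
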